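import Mathlib

/-!
# Smoothed arithmetic Kakeya: rounding, blocks and random shifts
-/

set_option autoImplicit false

open Finset

namespace Pool.Agent.Run7.h928.Smo

/-- The value of a linear form at a point. -/
def fm (f : ℚ × ℚ) (p : ℤ × ℤ) : ℚ := f.1 * p.1 + f.2 * p.2

/-- The number of values of a linear form on a finite set. -/
def nv (f : ℚ × ℚ) (A : Finset (ℤ × ℤ)) : ℕ := (A.image (fm f)).card

/-- The differences `x - y`. -/
def df (A : Finset (ℤ × ℤ)) : Finset ℤ := A.image fun p => p.1 - p.2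

/-- Rounding of a point to a multiple of `M`. -/
def rd (M : ℕ) (p : ℤ × ℤ) : ℤ × ℤ := (p.1 / (M : ℤ), p.2 / (M : ℤ))

/-- The block of a value. -/
def blk (M : ℕ) (f : ℚ × ℚ) (p : ℤ × ℤ) : ℤ := ⌊fm f p / M⌋

theorem df_le (B : Finset (ℤ × ℤ)) {M : ℕ} (hM : 1 ≤ M) :
    (df B).card ≤ 2 * M * (df (B.image (rd M))).card := by
  classical
  set R := df (B.image (rd M)) with hR
  have hM' : (0 : ℤ) < M := by exact_mod_cast hM
  have h1 : df B ⊆ R.biUnion fun k => Ioo ((M : ℤ) * k - M) (M * k + M) := by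
    intro d hd
    unfold df at hd
    obtain ⟨p, hp, rfl⟩ := mem_image.mp hd
    refine mem_biUnion.mpr ⟨p.1 / (M : ℤ) - p.2 / (M : ℤ), ?_, ?_⟩
    · rw [hR]; unfold df
      exact mem_image.mpr ⟨rd M p, mem_image_of_mem _ hp, rfl⟩
    · have e1 := Int.emod_add_mul_ediv p.1 M
      have e2 := Int.emod_add_mul_ediv p.2 M
      have l1 := Int.emod_nonneg p.1 hM'.ne'
      have l2 := Int.emod_nonneg p.2 hM'.ne'
      have l3 := Int.emod_lt_of_pos p.1 hM'
      have l4 := Int.emod_lt_of_pos p.2 hM'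
      rw [mem_Ioo]
      constructor <;> nlinarith
  calc (df B).card ≤ _ := card_le_card h1
    _ ≤ ∑ k ∈ R, (Ioo ((M : ℤ) * k - M) (M * k + M)).card := card_biUnion_le
    _ ≤ ∑ k ∈ R, 2 * M := sum_le_sum fun k _ => by rw [Int.card_Ioo]; omega
    _ = _ := by rw [sum_const, smul_eq_mul, mul_comm]

/-- common denominator -/
def qd (f : ℚ × ℚ) : ℕ := f.1.den * f.2.den

theorem qd_pos (f : ℚ × ℚ) : 0 < qd f := Nat.mul_pos f.1.den_pos f.2.den_pos

theorem fm_int (f : ℚ × ℚ) (p : ℤ × ℤ) : ∃ i : ℤ, fm f p = i / (qd f : ℚ) := by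
  refine ⟨f.1.num * f.2.den * p.1 + f.2.num * f.1.den * p.2, ?_⟩
  have h1 : (f.1.den : ℚ) ≠ 0 := by exact_mod_cast f.1.den_pos.ne'
  have h2 : (f.2.den : ℚ) ≠ 0 := by exact_mod_cast f.2.den_pos.ne'
  have e1 : f.1 * f.1.den = f.1.num := Rat.mul_den_eq_num f.1
  have e2 : f.2 * f.2.den = f.2.num := Rat.mul_den_eq_num f.2
  unfold fm qd
  push_cast
  rw [eq_div_iff (mul_ne_zero h1 h2)]
  linear_combination ((f.2.den : ℚ) * p.1) * e1 + ((f.1.den : ℚ) * p.2) * e2

/-- the constant of rounding -/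
noncomputable def K1 (f : ℚ × ℚ) : ℕ := ⌈(qd f : ℚ) * (|f.1| + |f.2| + 1)⌉₊

theorem blk_rd (f : ℚ × ℚ) {M : ℕ} (hM : 1 ≤ M) (p : ℤ × ℤ) :
    |fm f (rd M p) - blk M f p| ≤ |f.1| + |f.2| + 1 := by
  have hM0 : (0 : ℚ) < M := by exact_mod_cast hM
  have hM' : (0 : ℤ) < M := by exact_mod_cast hM
  have key : ∀ x : ℤ, ∃ e : ℚ, 0 ≤ e ∧ e ≤ 1 ∧ ((x / (M : ℤ) : ℤ) : ℚ) = (x : ℚ) / M - e := by
    intro x
    refine ⟨((x % (M : ℤ) : ℤ) : ℚ) / M, ?_, ?_, ?_⟩
    · have := Int.emod_nonneg x hM'.ne'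
      have h : (0 : ℚ) ≤ ((x % (M : ℤ) : ℤ) : ℚ) := by exact_mod_cast this
      positivity
    · rw [div_le_one hM0]
      have := (Int.emod_lt_of_pos x hM').le
      exact_mod_cast this
    · have e1 := Int.emod_add_mul_ediv x M
      have e2 : ((x % (M : ℤ) : ℤ) : ℚ) + M * ((x / (M : ℤ) : ℤ) : ℚ) = x := by exact_mod_cast e1
      field_simp
      linarith
  obtain ⟨e, he0, he1, he⟩ := key p.1
  obtain ⟨d, hd0, hd1, hd⟩ := key p.2
  have hf1 := Int.floor_le (fm f p / M)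
  have hf2 := Int.lt_floor_add_one (fm f p / M)
  have hv : fm f (rd M p) = fm f p / M - (f.1 * e + f.2 * d) := by
    unfold fm rd
    dsimp only
    rw [he, hd]
    field_simp
    ring
  have a1 : |f.1 * e| ≤ |f.1| := by
    rw [abs_mul, abs_of_nonneg he0]
    exact mul_le_of_le_one_right (abs_nonneg _) he1
  have a2 : |f.2 * d| ≤ |f.2| := by
    rw [abs_mul, abs_of_nonneg hd0]
    exact mul_le_of_le_one_right (abs_nonneg _) hd1
  have b1 := abs_le.mp a1
  have b2 := abs_le.mp a2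
  unfold blk
  rw [hv, abs_le]
  constructor <;> linarith [b1.1, b1.2, b2.1, b2.2]

theorem nv_rd (f : ℚ × ℚ) {M : ℕ} (hM : 1 ≤ M) (B : Finset (ℤ × ℤ)) :
    nv f (B.image (rd M)) ≤ (2 * K1 f + 1) * (B.image (blk M f)).card := by
  classical
  set q : ℕ := qd f with hq
  have hq0 : (0 : ℚ) < q := by exact_mod_cast qd_pos f
  have h1 : (B.image (rd M)).image (fm f) ⊆ (B.image (blk M f)).biUnion fun j =>
      (Icc ((q : ℤ) * j - K1 f) (q * j + K1 f)).image fun i : ℤ => (i : ℚ) / q := by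
    intro v hv
    rw [image_image] at hv
    obtain ⟨p, hp, rfl⟩ := mem_image.mp hv
    refine mem_biUnion.mpr ⟨blk M f p, mem_image_of_mem _ hp, ?_⟩
    obtain ⟨i, hi⟩ := fm_int f (rd M p)
    refine mem_image.mpr ⟨i, ?_, hi.symm⟩
    have h2 := blk_rd f hM p
    rw [hi] at h2
    have h3 : |(i : ℚ) - q * blk M f p| ≤ K1 f := by
      have h4 : (i : ℚ) - q * blk M f p = q * ((i : ℚ) / q - blk M f p) := by
        field_simp
      rw [h4, abs_mul, abs_of_pos hq0]
      exact (mul_le_mul_of_nonneg_left h2 hq0.le).trans (Nat.le_ceil _)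
    have h5 : |i - (q : ℤ) * blk M f p| ≤ (K1 f : ℤ) := by exact_mod_cast h3
    rw [mem_Icc]
    have := abs_le.mp h5
    constructor <;> linarith [this.1, this.2]
  unfold nv
  calc _ ≤ _ := card_le_card h1
    _ ≤ ∑ j ∈ B.image (blk M f), ((Icc ((q : ℤ) * j - K1 f) (q * j + K1 f)).image
          fun i : ℤ => (i : ℚ) / q).card := card_biUnion_le
    _ ≤ ∑ j ∈ B.image (blk M f), (2 * K1 f + 1) := sum_le_sum fun j _ =>
        card_image_le.trans (by rw [Int.card_Icc]; omega)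
    _ = _ := by rw [sum_const, smul_eq_mul, mul_comm]

/-- A subset with at most `M` elements in every block, full in the blocks it does not exhaust. -/
theorem blocksel {α : Type*} [DecidableEq α] (G : Finset α) (g : α → ℤ) (M : ℕ) :
    ∃ B ⊆ G, (∀ j, (B.filter fun b => g b = j).card ≤ M) ∧
      ∀ a ∈ G, a ∉ B → (B.filter fun b => g b = g a).card = M := by
  classical
  obtain ⟨B, hB, hmax⟩ := exists_max_image
    (G.powerset.filter fun B => ∀ j, (B.filter fun b => g b = j).card ≤ M) card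
    ⟨∅, by simp⟩
  rw [mem_filter, mem_powerset] at hB
  refine ⟨B, hB.1, hB.2, fun a ha haB => le_antisymm (hB.2 _) ?_⟩
  by_contra hlt
  push Not at hlt
  have h1 := hmax (insert a B) (by
    rw [mem_filter, mem_powerset]
    refine ⟨insert_subset ha hB.1, fun j => ?_⟩
    rw [filter_insert]
    split_ifs with h
    · refine (card_insert_le _ _).trans ?_
      rw [h] at hlt
      omega
    · exact hB.2 j)
  rw [card_insert_of_notMem haB] at h1
  omega

theorem heavy_le {α : Type*} [DecidableEq α] {G B : Finset α} {g : α → ℤ} {M : ℕ}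
    (h : ∀ a ∈ G, a ∉ B → (B.filter fun b => g b = g a).card = M) {G' : Finset α}
    (h1 : G' ⊆ G) (h2 : ∀ a ∈ G', a ∉ B) : M * (G'.image g).card ≤ B.card := by
  classical
  have e1 : ∑ j ∈ G'.image g, (B.filter fun b => g b = j).card = (G'.image g).card * M := by
    rw [← smul_eq_mul, ← sum_const]
    refine sum_congr rfl fun j hj => ?_
    obtain ⟨a, ha, rfl⟩ := mem_image.mp hj
    exact h a (h1 ha) (h2 a ha)
  have e2 : ((G'.image g).biUnion fun j => B.filter fun b => g b = j).card =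
      ∑ j ∈ G'.image g, (B.filter fun b => g b = j).card := by
    refine card_biUnion fun i _ j _ hij => ?_
    rw [Function.onFun, disjoint_left]
    intro x hx hx'
    exact hij ((mem_filter.mp hx).2.symm.trans (mem_filter.mp hx').2)
  rw [mul_comm, ← e1, ← e2]
  refine card_le_card fun x hx => ?_
  obtain ⟨j, -, hx⟩ := mem_biUnion.mp hx
  exact (mem_filter.mp hx).1

/-- The deterministic inequality. -/
theorem det_ineq {F : Finset (ℚ × ℚ)} {κ : ℝ} (hκ : 0 ≤ κ) {D : ℝ} (hD : 0 ≤ D)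
    (HB : ∀ A : Finset (ℤ × ℤ), ((df A).card : ℝ) ≤ D * ((F.sup fun f => nv f A : ℕ) : ℝ) ^ κ)
    {M : ℕ} (hM : 1 ≤ M) {A : Finset (ℤ × ℤ)} (hinj : Set.InjOn (fun p : ℤ × ℤ => p.1 - p.2) A)
    {B : ℚ × ℚ → Finset (ℤ × ℤ)}
    (hB : ∀ f ∈ F, B f ⊆ A ∧ ∀ a ∈ A, a ∉ B f →
      ((B f).filter fun b => blk M f b = blk M f a).card = M)
    {T : ℝ} (hT : ∀ f ∈ F, ((B f).card : ℝ) ≤ T) (hT0 : 0 ≤ T) :
    (A.card : ℝ) ≤ F.card * T + 2 * M * (D * (((2 * F.sup K1 + 1 : ℕ) : ℝ) * T / M) ^ κ) := by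
  classical
  have hM0 : (0 : ℝ) < M := by exact_mod_cast hM
  set G := A.filter fun a => ∀ f ∈ F, a ∉ B f with hG
  have hGA : G ⊆ A := filter_subset _ _
  have h1 : A ⊆ G ∪ F.biUnion B := by
    intro a ha
    by_cases h : ∀ f ∈ F, a ∉ B f
    · exact mem_union_left _ (mem_filter.mpr ⟨ha, h⟩)
    · push Not at h
      obtain ⟨f, hf, hfa⟩ := h
      exact mem_union_right _ (mem_biUnion.mpr ⟨f, hf, hfa⟩)
  have h2 : (A.card : ℝ) ≤ G.card + F.card * T := by
    have h3 : (A.card : ℝ) ≤ G.card + ∑ f ∈ F, ((B f).card : ℝ) := by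
      have : A.card ≤ G.card + ∑ f ∈ F, (B f).card :=
        (card_le_card h1).trans ((card_union_le _ _).trans
          (Nat.add_le_add_left card_biUnion_le _))
      exact_mod_cast this
    have h4 : ∑ f ∈ F, ((B f).card : ℝ) ≤ F.card * T := by
      have := sum_le_sum hT
      rwa [sum_const, nsmul_eq_mul] at this
    linarith
  have h5 : (G.card : ℝ) ≤ 2 * M * (df (G.image (rd M))).card := by
    have e1 : (df G).card = G.card := card_image_of_injOn (hinj.mono (by exact_mod_cast hGA))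
    have e2 := df_le G hM
    rw [e1] at e2
    exact_mod_cast e2
  have h6 : ((F.sup fun f => nv f (G.image (rd M)) : ℕ) : ℝ) ≤
      ((2 * F.sup K1 + 1 : ℕ) : ℝ) * T / M := by
    have h7 : ∀ f ∈ F, (nv f (G.image (rd M)) : ℝ) ≤ ((2 * F.sup K1 + 1 : ℕ) : ℝ) * T / M := by
      intro f hf
      have e1 := nv_rd f hM G
      have e2 : M * (G.image (blk M f)).card ≤ (B f).card :=
        heavy_le (hB f hf).2 hGA fun a ha => (mem_filter.mp ha).2 f hf
      have e3 : K1 f ≤ F.sup K1 := le_sup hf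
      have e4 : (nv f (G.image (rd M)) : ℝ) ≤
          ((2 * F.sup K1 + 1 : ℕ) : ℝ) * (G.image (blk M f)).card := by
        have : nv f (G.image (rd M)) ≤ (2 * F.sup K1 + 1) * (G.image (blk M f)).card :=
          e1.trans (Nat.mul_le_mul_right _ (by omega))
        exact_mod_cast this
      have e5 : ((G.image (blk M f)).card : ℝ) ≤ T / M := by
        rw [le_div_iff₀ hM0, mul_comm]
        refine le_trans ?_ (hT f hf)
        exact_mod_cast e2
      calc _ ≤ _ := e4
        _ ≤ ((2 * F.sup K1 + 1 : ℕ) : ℝ) * (T / M) :=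
          mul_le_mul_of_nonneg_left e5 (Nat.cast_nonneg _)
        _ = _ := by ring
    rcases F.eq_empty_or_nonempty with hF | hF
    · subst hF
      simp only [sup_empty, bot_eq_zero', Nat.cast_zero]
      positivity
    · obtain ⟨f, hf, hs⟩ := exists_mem_eq_sup F hF fun f => nv f (G.image (rd M))
      rw [hs]
      exact h7 f hf
  have h8 := HB (G.image (rd M))
  have h9 : ((df (G.image (rd M))).card : ℝ) ≤
      D * (((2 * F.sup K1 + 1 : ℕ) : ℝ) * T / M) ^ κ :=
    h8.trans (mul_le_mul_of_nonneg_left (Real.rpow_le_rpow (Nat.cast_nonneg _) h6 hκ) hD)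
  have h10 : 2 * (M : ℝ) * (df (G.image (rd M))).card ≤
      2 * M * (D * (((2 * F.sup K1 + 1 : ℕ) : ℝ) * T / M) ^ κ) :=
    mul_le_mul_of_nonneg_left h9 (by positivity)
  linarith

end Pool.Agent.Run7.h928.Smo
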