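import Pool.Agent.Run7.h928.Smo.Sharp
import Pool.Agent.R535.AK.Equiv

/-!
# Smoothed arithmetic Kakeya: equivalent forms of the conjecture
-/

set_option autoImplicit false
set_option linter.unusedSectionVars false

open Finset

namespace Pool.Agent.Run7.h928.Smo

open Pool.Agent.R535.AK (exists_inj card_le_sq card_diffs one_le_big big_mono_left diffs)

/-- A constant factor is removed by more slopes. -/
theorem remove_const {S : Finset ℚ} (hS : (-1 : ℚ) ∉ S) {κ κ' : ℝ} (hκ : 0 ≤ κ) (hκκ : κ < κ') (hκ' : 1 ≤ κ')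
    {D : ℝ} (h : ∀ A : Finset (ℤ × ℤ), ((proj (-1) A).card : ℝ) ≤ D * (big S A : ℝ) ^ κ) :
    ∃ S' : Finset ℚ, (-1 : ℚ) ∉ S' ∧
      ∀ A : Finset (ℤ × ℤ), ((proj (-1) A).card : ℝ) ≤ (big S' A : ℝ) ^ κ' := by
  classical
  obtain ⟨M0, hM0⟩ : ∃ M0 : ℕ, max D 0 ≤ (M0 : ℝ) ^ (κ' - κ) := by
    have h3 : Filter.Tendsto (fun m : ℕ => (m : ℝ) ^ (κ' - κ)) Filter.atTop Filter.atTop :=
      (tendsto_rpow_atTop (by linarith)).comp tendsto_natCast_atTop_atTop
    exact (Filter.tendsto_atTop.1 h3 (max D 0)).exists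
  set E : Finset ℚ := (Finset.range (M0 ^ 4 + 1)).image (fun i : ℕ => (i : ℚ) + 1) with hE
  have hEcard : E.card = M0 ^ 4 + 1 := by
    rw [hE, Finset.card_image_of_injective, Finset.card_range]
    intro i j hij
    simp only [add_left_inj, Nat.cast_inj] at hij
    exact hij
  refine ⟨insert 0 (S ∪ E), ?_, fun A => ?_⟩
  · intro hmem
    rw [Finset.mem_insert, Finset.mem_union] at hmem
    rcases hmem with h3 | h3 | h3
    · norm_num at h3
    · exact hS h3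
    · rw [hE, Finset.mem_image] at h3
      obtain ⟨i, _, hi⟩ := h3
      have : (0 : ℚ) ≤ (i : ℚ) := by positivity
      linarith
  set S' := insert 0 (S ∪ E) with hS'
  have hdc : (proj (-1) A).card = (diffs A).card := card_diffs A
  rcases A.eq_empty_or_nonempty with rfl | hA
  · have h0 : (proj (-1) (∅ : Finset (ℤ × ℤ))).card = 0 := by simp [proj]
    rw [h0, Nat.cast_zero]
    positivity
  set M := big S' A with hM
  have hM1 : 1 ≤ M := one_le_big hA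
  have hM1r : (1 : ℝ) ≤ M := by exact_mod_cast hM1
  rcases lt_or_ge M M0 with hlt | hge
  · have h3 : A.card ≤ M ^ 2 := card_le_sq (S := S') (by rw [hS']; exact Finset.mem_insert_self _ _) A
    have h4 : A.card ^ 2 < E.card := by
      rw [hEcard]
      calc A.card ^ 2 ≤ (M ^ 2) ^ 2 := Nat.pow_le_pow_left h3 2
        _ = M ^ 4 := by ring
        _ ≤ M0 ^ 4 := Nat.pow_le_pow_left hlt.le 4
        _ < _ := Nat.lt_succ_self _
    obtain ⟨r, hr, hrA⟩ := exists_inj A E h4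
    have h5 : A.card ≤ M := by
      rw [← hrA]
      refine (Finset.le_sup (f := fun r => (proj r A).card) ?_).trans (le_max_right _ _)
      rw [hS']
      exact Finset.mem_insert_of_mem (Finset.mem_union_right _ hr)
    have h6 : (proj (-1) A).card ≤ M := Finset.card_image_le.trans h5
    calc ((proj (-1) A).card : ℝ) ≤ M := by exact_mod_cast h6
      _ = (M : ℝ) ^ (1 : ℝ) := (Real.rpow_one _).symm
      _ ≤ (M : ℝ) ^ κ' := Real.rpow_le_rpow_of_exponent_le hM1r hκ'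
  · have hMS : big S A ≤ M := by
      rw [hM]
      refine big_mono_left (S := S) (T := S') (A := A) ?_
      intro r hr
      rw [hS']
      exact Finset.mem_insert_of_mem (Finset.mem_union_left _ hr)
    have hMS' : (big S A : ℝ) ≤ M := by exact_mod_cast hMS
    have hge' : (M0 : ℝ) ≤ M := by exact_mod_cast hge
    calc ((proj (-1) A).card : ℝ) ≤ D * (big S A : ℝ) ^ κ := h A
      _ ≤ max D 0 * (big S A : ℝ) ^ κ :=
        mul_le_mul_of_nonneg_right (le_max_left _ _) (by positivity)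
      _ ≤ (M0 : ℝ) ^ (κ' - κ) * (M : ℝ) ^ κ :=
        mul_le_mul hM0 (Real.rpow_le_rpow (by positivity) hMS' hκ) (by positivity) (by positivity)
      _ ≤ (M : ℝ) ^ (κ' - κ) * (M : ℝ) ^ κ :=
        mul_le_mul_of_nonneg_right (Real.rpow_le_rpow (by positivity) hge' (by linarith))
          (by positivity)
      _ = (M : ℝ) ^ κ' := by
        rw [← Real.rpow_add (by linarith), sub_add_cancel]

/-- The deterministic inequality with exponent `κ`. -/
def Det (S : Finset ℚ) (κ : ℝ) : Prop :=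
  ∃ D : ℝ, ∀ A : Finset (ℤ × ℤ), ((proj (-1) A).card : ℝ) ≤ D * (big S A : ℝ) ^ κ

/-- Typical shifts of size at least `|π₋₁(A)| ^ η` have a projection of size
`c |π₋₁(A)| ^ τ`. -/
def Typical (S : Finset ℚ) (η τ : ℝ) : Prop :=
  ∀ δ : ℝ, 0 < δ → ∃ c : ℝ, 0 < c ∧ ∀ (A : Finset (ℤ × ℤ)) (M : ℕ), 1 ≤ M →
    ((proj (-1) A).card : ℝ) ^ η ≤ M →
    ((univ.filter fun u : A → Fin M => (big S (shifted A u) : ℝ) <
      c * ((proj (-1) A).card : ℝ) ^ τ).card : ℝ) ≤ δ * (M : ℝ) ^ A.card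

/-- Some shift of size at least `|π₋₁(A)| ^ η` has a projection of size `c |π₋₁(A)| ^ τ`. -/
def Single (S : Finset ℚ) (η τ : ℝ) : Prop :=
  ∃ c : ℝ, 0 < c ∧ ∀ (A : Finset (ℤ × ℤ)) (M : ℕ), 1 ≤ M →
    ((proj (-1) A).card : ℝ) ^ η ≤ M →
    ∃ u : A → Fin M, c * ((proj (-1) A).card : ℝ) ^ τ ≤ (big S (shifted A u) : ℝ)

theorem some_of_typical {S : Finset ℚ} {η τ : ℝ} (h : Typical S η τ) : Single S η τ := by
  obtain ⟨c, hc, h⟩ := h (1 / 2) (by norm_num)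
  refine ⟨c, hc, fun A M hM hN => ?_⟩
  by_contra hcon
  push Not at hcon
  have h1 := h A M hM hN
  rw [filter_true_of_mem (fun u _ => hcon u)] at h1
  have h2 : ((univ : Finset (A → Fin M)).card : ℝ) = (M : ℝ) ^ A.card := by
    rw [card_univ, Fintype.card_fun, Fintype.card_fin, Fintype.card_coe]
    push_cast
    rfl
  rw [h2] at h1
  have hM0 : (0 : ℝ) < M := by exact_mod_cast hM
  have h3 : (0 : ℝ) < (M : ℝ) ^ A.card := by positivity
  linarith

theorem tfae {S : Finset ℚ} (hS : (-1 : ℚ) ∉ S) {κ η : ℝ} (hκ : 1 ≤ κ) (hη0 : 0 ≤ η)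
    (hη1 : η < 1) :
    (Det S κ ↔ Typical S η (η + (1 - η) / κ)) ∧ (Det S κ ↔ Single S η (η + (1 - η) / κ)) := by
  have h1 : Det S κ → Typical S η (η + (1 - η) / κ) := fun ⟨D, h⟩ δ hδ =>
    ab hS hκ h hη0 hη1.le hδ
  have h2 : Single S η (η + (1 - η) / κ) → Det S κ := fun ⟨c, hc, h⟩ => ca hκ hη0 hη1 hc h
  exact ⟨⟨h1, fun h => h2 (some_of_typical h)⟩, ⟨fun h => some_of_typical (h1 h), h2⟩⟩

/-- the arithmetic Kakeya conjecture in projection form -/
def Conjecture : Prop :=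
  ∀ ε : ℝ, 0 < ε → ∃ S : Finset ℚ, (-1 : ℚ) ∉ S ∧
    ∀ A : Finset (ℤ × ℤ), ((proj (-1) A).card : ℝ) ≤ (big S A : ℝ) ^ (1 + ε)

theorem typical_mono {S : Finset ℚ} {η τ τ' : ℝ} (hτ : τ' ≤ τ) (hτ' : 0 < τ')
    (h : Typical S η τ) : Typical S η τ' := by
  intro δ hδ
  obtain ⟨c, hc, h⟩ := h δ hδ
  refine ⟨c, hc, fun A M hM hN => le_trans ?_ (h A M hM hN)⟩
  have hsub : (univ.filter fun u : A → Fin M => (big S (shifted A u) : ℝ) <
      c * ((proj (-1) A).card : ℝ) ^ τ') ⊆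
      (univ.filter fun u : A → Fin M => (big S (shifted A u) : ℝ) <
      c * ((proj (-1) A).card : ℝ) ^ τ) := by
    intro u hu
    have hu := (mem_filter.mp hu).2
    refine mem_filter.mpr ⟨mem_univ _, lt_of_lt_of_le hu ?_⟩
    refine mul_le_mul_of_nonneg_left ?_ hc.le
    rcases Nat.eq_zero_or_pos (proj (-1) A).card with h0 | h0
    · rw [h0, Nat.cast_zero, Real.zero_rpow hτ'.ne', Real.zero_rpow (by linarith)]
    · exact Real.rpow_le_rpow_of_exponent_le (by exact_mod_cast h0) hτ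
  exact_mod_cast card_le_card hsub

theorem conj_typical (h : Conjecture) {η : ℝ} (hη0 : 0 ≤ η) (hη1 : η < 1) {ε : ℝ} (hε : 0 < ε)
    (hε1 : ε < 1) : ∃ S : Finset ℚ, (-1 : ℚ) ∉ S ∧ Typical S η (1 - ε) := by
  obtain ⟨S, hS, hb⟩ := h ε hε
  refine ⟨S, hS, ?_⟩
  have h1 : Det S (1 + ε) := ⟨1, fun A => by rw [one_mul]; exact hb A⟩
  have h2 := (tfae hS (by linarith) hη0 hη1).1.mp h1
  refine typical_mono ?_ (by linarith) h2
  have h3 : (1 - η) * (1 - ε) ≤ (1 - η) / (1 + ε) := by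
    rw [le_div_iff₀ (by linarith)]
    nlinarith [mul_nonneg (sub_nonneg.mpr hη1.le) (sq_nonneg ε)]
  nlinarith

theorem some_conj {η : ℝ} (hη0 : 0 ≤ η) (hη1 : η < 1)
    (h : ∀ ε : ℝ, 0 < ε → ε < 1 → ∃ S : Finset ℚ, (-1 : ℚ) ∉ S ∧ Single S η (1 - ε)) :
    Conjecture := by
  intro e he
  have h1η : 0 < 1 - η := by linarith
  set κ : ℝ := 1 + e / 2 with hκ
  have hκ1 : 1 < κ := by linarith
  have hκ0 : 0 < κ := by linarith
  set ε : ℝ := (1 - η) * (1 - 1 / κ) with hε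
  have h2 : 1 / κ < 1 := by rw [div_lt_one hκ0]; exact hκ1
  have h3 : 0 < 1 / κ := by positivity
  have hε0 : 0 < ε := by
    rw [hε]
    exact mul_pos h1η (by linarith)
  have hε1 : ε < 1 := by
    rw [hε]
    nlinarith
  obtain ⟨S, hS, hs⟩ := h ε hε0 hε1
  have h4 : 1 - ε = η + (1 - η) / κ := by
    rw [hε]
    ring
  rw [h4] at hs
  obtain ⟨D, hD⟩ := (tfae hS hκ1.le hη0 hη1).2.mpr hs
  exact remove_const hS hκ0.le (by linarith) (by linarith) hD

theorem conj_iff {η : ℝ} (hη0 : 0 ≤ η) (hη1 : η < 1) :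
    (Conjecture ↔ ∀ ε : ℝ, 0 < ε → ε < 1 → ∃ S : Finset ℚ, (-1 : ℚ) ∉ S ∧ Typical S η (1 - ε)) ∧
    (Conjecture ↔ ∀ ε : ℝ, 0 < ε → ε < 1 → ∃ S : Finset ℚ, (-1 : ℚ) ∉ S ∧ Single S η (1 - ε)) := by
  refine ⟨⟨fun h ε h0 h1 => conj_typical h hη0 hη1 h0 h1, fun h => ?_⟩,
    ⟨fun h ε h0 h1 => ?_, fun h => some_conj hη0 hη1 h⟩⟩
  · refine some_conj hη0 hη1 fun ε h0 h1 => ?_
    obtain ⟨S, hS, hs⟩ := h ε h0 h1
    exact ⟨S, hS, some_of_typical hs⟩
  · obtain ⟨S, hS, hs⟩ := conj_typical h hη0 hη1 h0 h1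
    exact ⟨S, hS, some_of_typical hs⟩

end Pool.Agent.Run7.h928.Smo
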