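import Pool.Agent.Run7.h928.Smo.Main

/-!
# Smoothed arithmetic Kakeya: exponents and sharpness
-/

set_option autoImplicit false
set_option linter.unusedSectionVars false

open Finset

namespace Pool.Agent.Run7.h928.Smo

theorem ab_alg {C δ κ η N M P : ℝ} (hC : 0 < C) (hδ : 0 < δ) (hκ : 1 ≤ κ)
    (hη1 : η ≤ 1) (hN : 1 ≤ N) (hM : N ^ η ≤ M) (hP : 0 ≤ P)
    (h : N ≤ C * (P / δ + M * (P / (δ * M)) ^ κ)) :
    min (δ / (2 * C)) (δ * ((2 * C)⁻¹) ^ (1 / κ)) * N ^ (η + (1 - η) / κ) ≤ P := by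
  have hN0 : 0 < N := by linarith
  have hκ0 : 0 < κ := by linarith
  have hM0 : 0 < M := lt_of_lt_of_le (Real.rpow_pos_of_pos hN0 _) hM
  have hθ0 : 0 ≤ 1 / κ := by positivity
  have hθ1 : 1 / κ ≤ 1 := by rw [div_le_one hκ0]; exact hκ
  have hτ : η + (1 - η) / κ ≤ 1 := by
    have : (1 - η) / κ ≤ 1 - η := div_le_self (by linarith) hκ
    linarith
  rcases le_total (M * (P / (δ * M)) ^ κ) (P / δ) with h1 | h1
  · have h2 : N ≤ 2 * C * (P / δ) := by
      calc N ≤ _ := h
        _ ≤ C * (P / δ + P / δ) := mul_le_mul_of_nonneg_left (by linarith) hC.le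
        _ = _ := by ring
    have h3 : δ / (2 * C) * N ≤ P := by
      rw [div_mul_eq_mul_div, div_le_iff₀ (by positivity)]
      have : 2 * C * (P / δ) = 2 * C * P / δ := by ring
      rw [this, le_div_iff₀ hδ] at h2
      linarith
    refine le_trans ?_ h3
    refine mul_le_mul (min_le_left _ _) ?_ (by positivity) (by positivity)
    calc N ^ (η + (1 - η) / κ) ≤ N ^ (1 : ℝ) := Real.rpow_le_rpow_of_exponent_le hN hτ
      _ = N := Real.rpow_one N
  · set x := P / (δ * M) with hx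
    have hx0 : 0 ≤ x := by positivity
    have h2 : N ≤ 2 * C * (M * x ^ κ) := by
      calc N ≤ _ := h
        _ ≤ C * (M * x ^ κ + M * x ^ κ) := mul_le_mul_of_nonneg_left (by linarith) hC.le
        _ = _ := by ring
    have h3 : (2 * C)⁻¹ * (N / M) ≤ x ^ κ := by
      rw [inv_mul_le_iff₀ (by positivity), div_le_iff₀ hM0]
      linarith
    have h4 : ((2 * C)⁻¹ * (N / M)) ^ (1 / κ) ≤ x := by
      calc _ ≤ (x ^ κ) ^ (1 / κ) := Real.rpow_le_rpow (by positivity) h3 hθ0
        _ = x := by rw [← Real.rpow_mul hx0, mul_one_div_cancel hκ0.ne', Real.rpow_one]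
    rw [Real.mul_rpow (by positivity) (by positivity)] at h4
    have h5 : P = δ * M * x := by rw [hx]; field_simp
    have h6 : N ^ (η + (1 - η) / κ) ≤ M * (N / M) ^ (1 / κ) := by
      have e1 : M * (N / M) ^ (1 / κ) = M ^ (1 - 1 / κ) * N ^ (1 / κ) := by
        rw [Real.div_rpow hN0.le hM0.le, Real.rpow_sub hM0, Real.rpow_one]
        ring
      have e2 : (N ^ η) ^ (1 - 1 / κ) ≤ M ^ (1 - 1 / κ) :=
        Real.rpow_le_rpow (by positivity) hM (by linarith)
      rw [e1]
      calc N ^ (η + (1 - η) / κ) = (N ^ η) ^ (1 - 1 / κ) * N ^ (1 / κ) := by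
            rw [← Real.rpow_mul hN0.le, ← Real.rpow_add hN0]
            congr 1
            field_simp
            ring
        _ ≤ _ := mul_le_mul_of_nonneg_right e2 (by positivity)
    calc _ ≤ (δ * ((2 * C)⁻¹) ^ (1 / κ)) * (M * (N / M) ^ (1 / κ)) :=
          mul_le_mul (min_le_right _ _) h6 (by positivity) (by positivity)
      _ = δ * M * (((2 * C)⁻¹) ^ (1 / κ) * (N / M) ^ (1 / κ)) := by ring
      _ ≤ δ * M * x := mul_le_mul_of_nonneg_left h4 (by positivity)
      _ = P := h5.symm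

theorem ca_alg {c C κ η N M P : ℝ} (hc : 0 < c) (hC : 0 < C) (hκ : 1 ≤ κ) (hη0 : 0 ≤ η)
    (hη1 : η < 1) (hN : 1 ≤ N) (hM0 : 0 < M) (hM : M ≤ 2 * N ^ (η / (1 - η))) (hP : 0 ≤ P)
    (h : c * (N * M) ^ (η + (1 - η) / κ) ≤ C * M * P) :
    N ≤ (2 * C / c) ^ κ * P ^ κ := by
  have hN0 : 0 < N := by linarith
  have hκ0 : 0 < κ := by linarith
  have h1η : 0 < 1 - η := by linarith
  set τ := η + (1 - η) / κ with hτ
  have hτ1 : 1 - τ = (1 - η) * (1 - 1 / κ) := by rw [hτ]; ring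
  have hθ1 : 1 / κ ≤ 1 := by rw [div_le_one hκ0]; exact hκ
  have hθ0 : 0 < 1 / κ := by positivity
  have hτ0 : 0 ≤ 1 - τ := by
    rw [hτ1]; exact mul_nonneg h1η.le (by linarith)
  have hτ2 : 1 - τ ≤ 1 := by
    rw [hτ1]
    exact mul_le_one₀ (by linarith) (by linarith) (by linarith)
  have e1 : c * N ^ τ ≤ C * M ^ (1 - τ) * P := by
    have e2 : M = M ^ τ * M ^ (1 - τ) := by
      rw [← Real.rpow_add hM0, add_sub_cancel, Real.rpow_one]
    have e3 : (N * M) ^ τ = N ^ τ * M ^ τ := Real.mul_rpow hN0.le hM0.le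
    rw [e3] at h
    have hMτ : 0 < M ^ τ := Real.rpow_pos_of_pos hM0 _
    refine le_of_mul_le_mul_right ?_ hMτ
    calc c * N ^ τ * M ^ τ = c * (N ^ τ * M ^ τ) := by ring
      _ ≤ C * M * P := h
      _ = C * (M ^ τ * M ^ (1 - τ)) * P := by rw [← e2]
      _ = _ := by ring
  have e4 : M ^ (1 - τ) ≤ 2 * N ^ (η * (1 - 1 / κ)) := by
    calc M ^ (1 - τ) ≤ (2 * N ^ (η / (1 - η))) ^ (1 - τ) := Real.rpow_le_rpow hM0.le hM hτ0
      _ = 2 ^ (1 - τ) * N ^ (η * (1 - 1 / κ)) := by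
          rw [Real.mul_rpow (by norm_num) (by positivity), ← Real.rpow_mul hN0.le, hτ1]
          congr 2
          field_simp
      _ ≤ 2 ^ (1 : ℝ) * N ^ (η * (1 - 1 / κ)) :=
          mul_le_mul_of_nonneg_right (Real.rpow_le_rpow_of_exponent_le (by norm_num) hτ2)
            (by positivity)
      _ = _ := by rw [Real.rpow_one]
  have e5 : c * N ^ (1 / κ) ≤ 2 * C * P := by
    have hNe : 0 < N ^ (η * (1 - 1 / κ)) := Real.rpow_pos_of_pos hN0 _
    refine le_of_mul_le_mul_right ?_ hNe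
    have e6 : N ^ τ = N ^ (1 / κ) * N ^ (η * (1 - 1 / κ)) := by
      rw [← Real.rpow_add hN0, hτ]
      congr 1
      field_simp
      ring
    calc c * N ^ (1 / κ) * N ^ (η * (1 - 1 / κ)) = c * N ^ τ := by rw [e6]; ring
      _ ≤ C * M ^ (1 - τ) * P := e1
      _ ≤ C * (2 * N ^ (η * (1 - 1 / κ))) * P :=
          mul_le_mul_of_nonneg_right (mul_le_mul_of_nonneg_left e4 hC.le) hP
      _ = _ := by ring
  have e7 : N ^ (1 / κ) ≤ 2 * C / c * P := by
    rw [div_mul_eq_mul_div, le_div_iff₀ hc]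
    linarith
  calc N = (N ^ (1 / κ)) ^ κ := by
        rw [← Real.rpow_mul hN0.le, one_div_mul_cancel hκ0.ne', Real.rpow_one]
    _ ≤ (2 * C / c * P) ^ κ := Real.rpow_le_rpow (by positivity) e7 hκ0.le
    _ = _ := Real.mul_rpow (by positivity) hP

/-- The projection with slope `r`. -/
def proj (r : ℚ) (A : Finset (ℤ × ℤ)) : Finset ℚ := A.image fun p => (p.1 : ℚ) + r * p.2

/-- The projection with slope `∞`. -/
def projInf (A : Finset (ℤ × ℤ)) : Finset ℚ := A.image fun p => (p.2 : ℚ)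

/-- The largest size of a projection with slope `∞` or in `S`. -/
def big (S : Finset ℚ) (A : Finset (ℤ × ℤ)) : ℕ :=
  max (projInf A).card (S.sup fun r => (proj r A).card)

/-- The linear forms. -/
def FS (S : Finset ℚ) : Finset (ℚ × ℚ) := insert (0, 1) (S.image fun r => (1, r))

theorem big_eq (S : Finset ℚ) (A : Finset (ℤ × ℤ)) : (FS S).sup (fun f => nv f A) = big S A := by
  unfold FS big
  rw [sup_insert, sup_image]
  have e1 : nv (0, 1) A = (projInf A).card := by
    unfold nv projInf fm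
    congr 1
    refine image_congr fun p _ => ?_
    simp
  have e2 : ((fun f => nv f A) ∘ fun r : ℚ => ((1 : ℚ), r)) = fun r => (proj r A).card := by
    funext r
    unfold nv proj fm
    dsimp only [Function.comp]
    congr 1
    refine image_congr fun p _ => ?_
    simp
  rw [e2, e1]

theorem df_card (A : Finset (ℤ × ℤ)) : (df A).card = (proj (-1) A).card := by
  have h : proj (-1) A = (df A).image fun z : ℤ => (z : ℚ) := by
    unfold proj df
    rw [image_image]
    refine image_congr fun p _ => ?_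
    simp only [Function.comp]
    push_cast
    ring
  rw [h, card_image_of_injective _ Int.cast_injective]

theorem FS_ne {S : Finset ℚ} (hS : (-1 : ℚ) ∉ S) : ∀ f ∈ FS S, f.1 + f.2 ≠ 0 := by
  intro f hf
  unfold FS at hf
  rcases mem_insert.mp hf with rfl | hf
  · norm_num
  · obtain ⟨r, hr, rfl⟩ := mem_image.mp hf
    intro h
    dsimp only at h
    have : r = -1 := by linarith
    exact hS (this ▸ hr)

/-- (a) implies (b) -/
theorem ab {S : Finset ℚ} (hS : (-1 : ℚ) ∉ S) {κ : ℝ} (hκ : 1 ≤ κ) {D : ℝ}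
    (HB : ∀ A : Finset (ℤ × ℤ), ((proj (-1) A).card : ℝ) ≤ D * (big S A : ℝ) ^ κ)
    {η : ℝ} (hη0 : 0 ≤ η) (hη1 : η ≤ 1) {δ : ℝ} (hδ : 0 < δ) :
    ∃ c : ℝ, 0 < c ∧ ∀ (A : Finset (ℤ × ℤ)) (M : ℕ), 1 ≤ M →
      ((proj (-1) A).card : ℝ) ^ η ≤ M →
      ((univ.filter fun u : A → Fin M => (big S (shifted A u) : ℝ) <
        c * ((proj (-1) A).card : ℝ) ^ (η + (1 - η) / κ)).card : ℝ) ≤ δ * (M : ℝ) ^ A.card := by
  classical
  have hκ0 : 0 < κ := by linarith
  obtain ⟨C, hC, h⟩ := smooth (F := FS S) (FS_ne hS) ⟨(0, 1), mem_insert_self _ _⟩ hκ0.le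
    (D := max D 0) (le_max_right _ _) (fun A => by
      rw [big_eq, df_card]
      exact (HB A).trans (mul_le_mul_of_nonneg_right (le_max_left _ _) (by positivity)))
  refine ⟨min (δ / (2 * C)) (δ * ((2 * C)⁻¹) ^ (1 / κ)), lt_min (by positivity) (by positivity),
    fun A M hM hNM => ?_⟩
  refine le_trans ?_ (h A M δ hM hδ)
  have hsub : (univ.filter fun u : A → Fin M => (big S (shifted A u) : ℝ) <
        min (δ / (2 * C)) (δ * ((2 * C)⁻¹) ^ (1 / κ)) *
          ((proj (-1) A).card : ℝ) ^ (η + (1 - η) / κ)) ⊆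
      (univ.filter fun u : A → Fin M => ¬ ((df A).card : ℝ) ≤
        C * ((((FS S).sup fun f => nv f (shifted A u) : ℕ) : ℝ) / δ +
          M * (((((FS S).sup fun f => nv f (shifted A u) : ℕ) : ℝ) / (δ * M)) ^ κ))) := by
    intro u hu
    refine mem_filter.mpr ⟨mem_univ _, fun hcon => ?_⟩
    have hu := (mem_filter.mp hu).2
    rw [big_eq, df_card] at hcon
    rcases Nat.eq_zero_or_pos (proj (-1) A).card with h0 | h0
    · rw [h0, Nat.cast_zero, Real.zero_rpow, mul_zero] at hu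
      · exact absurd hu (not_lt.mpr (Nat.cast_nonneg _))
      · have h1 : 0 ≤ (1 - η) / κ := div_nonneg (by linarith) hκ0.le
        rcases hη0.lt_or_eq with h2 | h2
        · linarith
        · rw [← h2]
          simp only [zero_add, sub_zero]
          positivity
    · have hN : (1 : ℝ) ≤ (proj (-1) A).card := by exact_mod_cast h0
      exact absurd (ab_alg hC hδ hκ hη1 hN hNM (Nat.cast_nonneg _) hcon) (not_le.mpr hu)
  exact_mod_cast card_le_card hsub

end Pool.Agent.Run7.h928.Smo
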