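import Pool.Agent.Run7.h928.Smo.Rand

/-!
# Smoothed arithmetic Kakeya: the main inequality
-/

set_option autoImplicit false
set_option linter.unusedSectionVars false

open Finset

namespace Pool.Agent.Run7.h928.Smo

/-- Every point `p` of `A` is shifted by `(u p, u p)`. -/
def shifted (A : Finset (ℤ × ℤ)) {M : ℕ} (u : A → Fin M) : Finset (ℤ × ℤ) :=
  univ.image fun a : A => (a.1.1 + ((u a : ℕ) : ℤ), a.1.2 + ((u a : ℕ) : ℤ))

theorem fm_shift (f : ℚ × ℚ) (p : ℤ × ℤ) (k : ℕ) :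
    fm f (p.1 + (k : ℤ), p.2 + (k : ℤ)) = fm f p + (f.1 + f.2) * (k : ℚ) := by
  unfold fm
  push_cast
  ring

/-- The smoothed inequality. -/
theorem smooth {F : Finset (ℚ × ℚ)} (hF : ∀ f ∈ F, f.1 + f.2 ≠ 0) (hne : F.Nonempty) {κ : ℝ}
    (hκ : 0 ≤ κ) {D : ℝ} (hD : 0 ≤ D)
    (HB : ∀ A : Finset (ℤ × ℤ), ((df A).card : ℝ) ≤ D * ((F.sup fun f => nv f A : ℕ) : ℝ) ^ κ) :
    ∃ C : ℝ, 0 < C ∧ ∀ (A : Finset (ℤ × ℤ)) (M : ℕ) (δ : ℝ), 1 ≤ M → 0 < δ →
      ((univ.filter fun u : A → Fin M => ¬ ((df A).card : ℝ) ≤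
        C * (((F.sup fun f => nv f (shifted A u) : ℕ) : ℝ) / δ +
          M * ((((F.sup fun f => nv f (shifted A u) : ℕ) : ℝ) / (δ * M)) ^ κ))).card : ℝ) ≤
        δ * (M : ℝ) ^ A.card := by
  classical
  set C2 : ℕ := 2 * (F.sup fun f => K2 (f.1 + f.2)) + 1 with hC2
  set C0 : ℕ := 2 * F.sup K1 + 1 with hC0
  have hC2' : (0 : ℝ) < 1 + C2 := by positivity
  refine ⟨F.card * (1 + C2) + 2 * D * (C0 * (1 + C2)) ^ κ + 1, by positivity, ?_⟩
  intro A M δ hM hδ
  have hM0 : (0 : ℝ) < M := by exact_mod_cast hM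
  obtain ⟨A1, hA1, hinj, himg⟩ : ∃ A1 ⊆ A, Set.InjOn (fun p : ℤ × ℤ => p.1 - p.2) A1 ∧
      df A1 = df A := by
    obtain ⟨t, ht, h1, h2⟩ := Finset.exists_subset_injOn_image_eq_of_surjOn
      (f := fun p : ℤ × ℤ => p.1 - p.2) (A : Set (ℤ × ℤ)) (df A) (by
        intro d hd
        have hd := mem_coe.mp hd
        unfold df at hd
        obtain ⟨p, hp, h⟩ := mem_image.mp hd
        exact ⟨p, mem_coe.mpr hp, h⟩)
    exact ⟨t, by exact_mod_cast ht, h1, h2⟩
  choose B hBsub hBle hBfull using fun f : ℚ × ℚ => blocksel A1 (blk M f) M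
  obtain ⟨f, hf, hsup⟩ := exists_mem_eq_sup F hne fun f => (B f).card
  have hmax : ∀ f' ∈ F, (B f').card ≤ (B f).card := fun f' hf' => by
    rw [← hsup]; exact le_sup (f := fun f => (B f).card) hf'
  set B' : Finset A := univ.filter fun a : A => a.1 ∈ B f with hB'
  have hBA : B f ⊆ A := (hBsub f).trans hA1
  have cardB : ∀ P : (ℤ × ℤ) → Prop, ∀ [DecidablePred P],
      (B'.filter fun a => P a.1).card = ((B f).filter P).card := by
    intro P _
    refine card_bij (fun a _ => a.1) ?_ ?_ ?_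
    · intro a ha
      obtain ⟨h1, h2⟩ := mem_filter.mp ha
      exact mem_filter.mpr ⟨(mem_filter.mp h1).2, h2⟩
    · intro a _ b _ h
      exact Subtype.ext h
    · intro p hp
      obtain ⟨h1, h2⟩ := mem_filter.mp hp
      exact ⟨⟨p, hBA h1⟩, mem_filter.mpr ⟨mem_filter.mpr ⟨mem_univ _, h1⟩, h2⟩, rfl⟩
  have cardB' : B'.card = (B f).card := by
    have := cardB fun _ => True
    simpa using this
  have hr := rand (ι := A) (M := M) (B := B') (g := fun a => fm f a.1) (s := f.1 + f.2) (hF f hf)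
    hM (C := C2) (fun a _ => by
      refine (near_le hM (f := f) (s := f.1 + f.2) (pt := fun a : A => a.1) (B := B')
        (fun j => ?_) a).trans ?_
      · rw [cardB fun p => blk M f p = j]
        exact hBle f j
      · refine Nat.mul_le_mul_right _ ?_
        have : K2 (f.1 + f.2) ≤ F.sup fun f => K2 (f.1 + f.2) :=
          le_sup (f := fun f : ℚ × ℚ => K2 (f.1 + f.2)) hf
        omega) hδ
  rw [Fintype.card_coe] at hr
  refine le_trans ?_ hr
  have hsub : (univ.filter fun u : A → Fin M => ¬ ((df A).card : ℝ) ≤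
        (F.card * (1 + C2) + 2 * D * (C0 * (1 + C2)) ^ κ + 1) *
        (((F.sup fun f => nv f (shifted A u) : ℕ) : ℝ) / δ +
          M * ((((F.sup fun f => nv f (shifted A u) : ℕ) : ℝ) / (δ * M)) ^ κ))) ⊆
      univ.filter fun u : A → Fin M => (1 + C2 : ℝ) *
        (B'.image fun a => fm f a.1 + (f.1 + f.2) * ((u a : ℕ) : ℚ)).card < δ * B'.card := by
    intro u hu
    obtain ⟨-, hu⟩ := mem_filter.mp hu
    refine mem_filter.mpr ⟨mem_univ _, ?_⟩
    by_contra hcon
    apply hu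
    push Not at hcon
    set P : ℝ := ((F.sup fun f => nv f (shifted A u) : ℕ) : ℝ) with hP
    have hP0 : 0 ≤ P := Nat.cast_nonneg _
    have h1 : ((B'.image fun a => fm f a.1 + (f.1 + f.2) * ((u a : ℕ) : ℚ)).card : ℝ) ≤ P := by
      have h2 : (B'.image fun a => fm f a.1 + (f.1 + f.2) * ((u a : ℕ) : ℚ)) ⊆
          (shifted A u).image (fm f) := by
        intro v hv
        obtain ⟨a, -, rfl⟩ := mem_image.mp hv
        rw [← fm_shift]
        exact mem_image_of_mem _ (mem_image_of_mem _ (mem_univ a))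
      have h3 : nv f (shifted A u) ≤ F.sup fun f => nv f (shifted A u) :=
        le_sup (f := fun f => nv f (shifted A u)) hf
      have h4 := (card_le_card h2).trans h3
      rw [hP]
      exact_mod_cast h4
    have h2 : ((B f).card : ℝ) ≤ (1 + C2) * P / δ := by
      rw [le_div_iff₀ hδ, mul_comm, ← cardB']
      exact hcon.trans (mul_le_mul_of_nonneg_left h1 hC2'.le)
    have h3 := det_ineq hκ hD HB hM hinj (B := B) (T := (1 + C2) * P / δ)
      (fun f' _ => ⟨hBsub f', hBfull f'⟩)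
      (fun f' hf' => le_trans (by exact_mod_cast hmax f' hf') h2) (by positivity)
    have h4 : A1.card = (df A).card := by
      rw [← himg]
      exact (card_image_of_injOn hinj).symm
    rw [h4] at h3
    have h5 : ((2 * F.sup K1 + 1 : ℕ) : ℝ) * ((1 + C2) * P / δ) / M =
        (C0 * (1 + C2)) * (P / (δ * M)) := by
      rw [hC0]
      field_simp
    have hC0' : (0 : ℝ) ≤ C0 * (1 + C2) := by positivity
    rw [h5, Real.mul_rpow hC0' (by positivity)] at h3
    have hX : 0 ≤ P / δ := by positivity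
    have hY : 0 ≤ M * (P / (δ * M)) ^ κ := by positivity
    have hZ : 0 ≤ ((C0 : ℝ) * (1 + C2)) ^ κ := by positivity
    have hn : (0 : ℝ) ≤ F.card * (1 + C2) := by positivity
    calc ((df A).card : ℝ) ≤ _ := h3
      _ = (F.card * (1 + C2)) * (P / δ) +
          (2 * D * (C0 * (1 + C2)) ^ κ) * (M * (P / (δ * M)) ^ κ) := by ring
      _ ≤ (F.card * (1 + C2) + 2 * D * (C0 * (1 + C2)) ^ κ + 1) * (P / δ) +
          (F.card * (1 + C2) + 2 * D * (C0 * (1 + C2)) ^ κ + 1) * (M * (P / (δ * M)) ^ κ) := by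
          have hZ' : 0 ≤ 2 * D * (C0 * (1 + C2)) ^ κ := by positivity
          refine add_le_add (mul_le_mul_of_nonneg_right ?_ hX) (mul_le_mul_of_nonneg_right ?_ hY)
          · linarith
          · linarith
      _ = _ := by ring
  exact_mod_cast card_le_card hsub

end Pool.Agent.Run7.h928.Smo
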