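import Pool.Agent.Run7.h928.Smo.Conj
import Pool.Agent.TH404.AK.Sdc3
import Pool.Agent.R470.AK.Part

/-!
# Progressions with shifted first terms
-/

set_option autoImplicit false
set_option linter.unusedSectionVars false

open Finset

namespace Pool.Agent.Run7.h928.Smo.Prog

/-- The union of the `k`-term progressions with common differences `d ∈ D` and first terms `a d`. -/
def aps (k : ℕ) (D : Finset ℤ) (a : D → ℤ) : Finset ℤ :=
  (univ ×ˢ range k).image fun z : D × ℕ => a z.1 + (z.2 : ℤ) * z.1.1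

/-- The first terms `a d` are replaced by `a d + u d`. -/
def shift {D : Finset ℤ} (a : D → ℤ) {M : ℕ} (u : D → Fin M) : D → ℤ :=
  fun d => a d + ((u d : ℕ) : ℤ)

/-- All unions of `k`-term progressions with `N` common differences have size at least
`(N / C) ^ (1 / κ)`. -/
def Det (k : ℕ) (κ : ℝ) : Prop :=
  ∃ C : ℝ, ∀ (D : Finset ℤ) (a : D → ℤ), (D.card : ℝ) ≤ C * ((aps k D a).card : ℝ) ^ κ

/-- The form for typical shifts of the first terms. -/
def Typical (k : ℕ) (η τ : ℝ) : Prop :=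
  ∀ δ : ℝ, 0 < δ → ∃ c : ℝ, 0 < c ∧ ∀ (D : Finset ℤ) (a : D → ℤ) (M : ℕ), 1 ≤ M →
    (D.card : ℝ) ^ η ≤ M →
    ((univ.filter fun u : D → Fin M => ((aps k D (shift a u)).card : ℝ) <
      c * (D.card : ℝ) ^ τ).card : ℝ) ≤ δ * (M : ℝ) ^ D.card

/-- The form for one shift of the first terms. -/
def Single (k : ℕ) (η τ : ℝ) : Prop :=
  ∃ c : ℝ, 0 < c ∧ ∀ (D : Finset ℤ) (a : D → ℤ) (M : ℕ), 1 ≤ M → (D.card : ℝ) ^ η ≤ M →
    ∃ u : D → Fin M, c * (D.card : ℝ) ^ τ ≤ ((aps k D (shift a u)).card : ℝ)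

/-- The slopes of the `k`-term progressions. -/
def slopes (k : ℕ) : Finset ℚ := (Ico 1 k).image fun j : ℕ => 1 / (j : ℚ) - 1

theorem slopes_ne (k : ℕ) : (-1 : ℚ) ∉ slopes k := by
  intro h
  unfold slopes at h
  obtain ⟨j, hj, h⟩ := mem_image.mp h
  have hj0 : (0 : ℚ) < j := by exact_mod_cast (mem_Ico.mp hj).1
  have : 0 < 1 / (j : ℚ) := by positivity
  linarith

/-- The set of points of a family of progressions. -/
def graph (D : Finset ℤ) (a : D → ℤ) : Finset (ℤ × ℤ) := univ.image fun d : D => (a d + d.1, a d)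

theorem graph_inj (D : Finset ℤ) (a : D → ℤ) :
    Function.Injective fun d : D => ((a d + d.1, a d) : ℤ × ℤ) := by
  intro d e h
  simp only [Prod.mk.injEq] at h
  apply Subtype.ext
  have h1 := h.1
  rw [h.2] at h1
  linarith

theorem graph_card (D : Finset ℤ) (a : D → ℤ) : (graph D a).card = D.card := by
  unfold graph
  rw [card_image_of_injective _ (graph_inj D a), card_univ, Fintype.card_coe]

theorem graph_proj (D : Finset ℤ) (a : D → ℤ) : (proj (-1) (graph D a)).card = D.card := by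
  have h : proj (-1) (graph D a) = D.image fun z : ℤ => (z : ℚ) := by
    ext q
    unfold proj graph
    simp only [mem_image, mem_univ, true_and]
    constructor
    · rintro ⟨p, ⟨d, rfl⟩, rfl⟩
      refine ⟨d.1, d.2, ?_⟩
      push_cast
      ring
    · rintro ⟨z, hz, rfl⟩
      refine ⟨_, ⟨⟨z, hz⟩, rfl⟩, ?_⟩
      push_cast
      ring
  rw [h, card_image_of_injective _ Int.cast_injective]

theorem inf_le {k : ℕ} (hk : 1 ≤ k) (D : Finset ℤ) (a : D → ℤ) :
    (projInf (graph D a)).card ≤ (aps k D a).card := by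
  have h : projInf (graph D a) ⊆ (aps k D a).image fun z : ℤ => (z : ℚ) := by
    intro q hq
    unfold projInf graph at hq
    obtain ⟨p, hp, rfl⟩ := mem_image.mp hq
    obtain ⟨d, _, rfl⟩ := mem_image.mp hp
    refine mem_image.mpr ⟨a d, ?_, rfl⟩
    unfold aps
    exact mem_image.mpr ⟨(d, 0), mem_product.mpr ⟨mem_univ _, mem_range.mpr hk⟩, by simp⟩
  exact (card_le_card h).trans card_image_le

/-- The `j`-th terms. -/
def term (j : ℕ) (D : Finset ℤ) (a : D → ℤ) : Finset ℤ := univ.image fun d : D => a d + (j : ℤ) * d.1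

theorem slope_card {j : ℕ} (hj : 1 ≤ j) (D : Finset ℤ) (a : D → ℤ) :
    (proj (1 / (j : ℚ) - 1) (graph D a)).card = (term j D a).card := by
  have hj0 : (0 : ℚ) < j := by exact_mod_cast hj
  have h : proj (1 / (j : ℚ) - 1) (graph D a) = (term j D a).image fun z : ℤ => (z : ℚ) / j := by
    unfold proj graph term
    rw [image_image, image_image]
    refine image_congr fun d _ => ?_
    simp only [Function.comp]
    push_cast
    field_simp
    ring
  rw [h, card_image_of_injective]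
  intro x y hxy
  dsimp only at hxy
  rw [div_left_inj' hj0.ne'] at hxy
  exact_mod_cast hxy

theorem inf_card (D : Finset ℤ) (a : D → ℤ) : (projInf (graph D a)).card = (term 0 D a).card := by
  have h : projInf (graph D a) = (term 0 D a).image fun z : ℤ => (z : ℚ) := by
    unfold projInf graph term
    rw [image_image, image_image]
    refine image_congr fun d _ => ?_
    simp [Function.comp]
  rw [h, card_image_of_injective _ Int.cast_injective]

theorem term_sub {k j : ℕ} (hj : j < k) (D : Finset ℤ) (a : D → ℤ) : term j D a ⊆ aps k D a := by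
  intro z hz
  unfold term at hz
  obtain ⟨d, _, rfl⟩ := mem_image.mp hz
  unfold aps
  exact mem_image.mpr ⟨(d, j), mem_product.mpr ⟨mem_univ _, mem_range.mpr hj⟩, rfl⟩

theorem big_le {k : ℕ} (hk : 1 ≤ k) (D : Finset ℤ) (a : D → ℤ) :
    big (slopes k) (graph D a) ≤ (aps k D a).card := by
  unfold big
  refine max_le ?_ (Finset.sup_le fun r hr => ?_)
  · rw [inf_card]
    exact card_le_card (term_sub (by omega) D a)
  · unfold slopes at hr
    obtain ⟨j, hj, rfl⟩ := mem_image.mp hr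
    rw [slope_card (mem_Ico.mp hj).1]
    exact card_le_card (term_sub (mem_Ico.mp hj).2 D a)

theorem aps_le (k : ℕ) (D : Finset ℤ) (a : D → ℤ) :
    (aps k D a).card ≤ k * big (slopes k) (graph D a) := by
  have h1 : aps k D a ⊆ (range k).biUnion fun j => term j D a := by
    intro z hz
    unfold aps at hz
    obtain ⟨⟨d, j⟩, hp, rfl⟩ := mem_image.mp hz
    exact mem_biUnion.mpr ⟨j, (mem_product.mp hp).2, mem_image.mpr ⟨d, mem_univ _, rfl⟩⟩
  calc _ ≤ _ := card_le_card h1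
    _ ≤ ∑ j ∈ range k, (term j D a).card := card_biUnion_le
    _ ≤ ∑ j ∈ range k, big (slopes k) (graph D a) := by
        refine sum_le_sum fun j hj => ?_
        rcases Nat.eq_zero_or_pos j with rfl | h0
        · rw [← inf_card]
          exact le_max_left _ _
        · rw [← slope_card h0]
          refine le_trans ?_ (le_max_right _ _)
          refine le_sup (f := fun r => (proj r (graph D a)).card) ?_
          exact mem_image.mpr ⟨j, mem_Ico.mpr ⟨h0, mem_range.mp hj⟩, rfl⟩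
    _ = _ := by rw [sum_const, card_range, smul_eq_mul]

theorem big_mono {S : Finset ℚ} {A B : Finset (ℤ × ℤ)} (h : A ⊆ B) : big S A ≤ big S B :=
  Pool.Agent.R535.AK.big_mono h

/-- The shifts of the points of the graph. -/
theorem shifted_graph (D : Finset ℤ) (a : D → ℤ) {M : ℕ} (u : graph D a → Fin M)
    (v : D → Fin M) (h : ∀ d : D, u ⟨(a d + d.1, a d), mem_image.mpr ⟨d, mem_univ _, rfl⟩⟩ = v d) :
    shifted (graph D a) u = graph D (shift a v) := by
  ext q
  unfold shifted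
  rw [mem_image]
  constructor
  · rintro ⟨⟨p, hp⟩, _, rfl⟩
    obtain ⟨d, _, hd⟩ := mem_image.mp hp
    subst hd
    refine mem_image.mpr ⟨d, mem_univ _, ?_⟩
    rw [h d]
    unfold shift
    ext
    · dsimp only
      ring
    · rfl
  · intro hq
    obtain ⟨d, _, rfl⟩ := mem_image.mp hq
    refine ⟨⟨(a d + d.1, a d), mem_image.mpr ⟨d, mem_univ _, rfl⟩⟩, mem_univ _, ?_⟩
    rw [h d]
    unfold shift
    ext
    · dsimp only
      ring
    · rfl

theorem typical_of {k : ℕ} (hk : 1 ≤ k) {η τ : ℝ} (h : Smo.Typical (slopes k) η τ) :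
    Typical k η τ := by
  classical
  intro δ hδ
  obtain ⟨c, hc, h⟩ := h δ hδ
  refine ⟨c, hc, fun D a M hM hN => ?_⟩
  have h1 := h (graph D a) M hM (by rw [graph_proj]; exact hN)
  rw [graph_proj, graph_card] at h1
  refine le_trans ?_ h1
  have hex : ∀ p : graph D a, ∃ d : D, (a d + d.1, a d) = p.1 := fun p => by
    obtain ⟨d, _, hd⟩ := mem_image.mp p.2
    exact ⟨d, hd⟩
  choose g hg using hex
  have hgd : ∀ d : D, g ⟨(a d + d.1, a d), mem_image.mpr ⟨d, mem_univ _, rfl⟩⟩ = d := fun d =>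
    graph_inj D a (hg ⟨(a d + d.1, a d), mem_image.mpr ⟨d, mem_univ _, rfl⟩⟩)
  have h2 : (univ.filter fun u : D → Fin M => ((aps k D (shift a u)).card : ℝ) <
      c * (D.card : ℝ) ^ τ).card ≤
      (univ.filter fun u : graph D a → Fin M => (big (slopes k) (shifted (graph D a) u) : ℝ) <
      c * (D.card : ℝ) ^ τ).card := by
    refine card_le_card_of_injOn (fun u p => u (g p)) ?_ ?_
    · intro u hu
      have hu := (mem_filter.mp (mem_coe.mp hu)).2
      refine mem_coe.mpr (mem_filter.mpr ⟨mem_univ _, lt_of_le_of_lt ?_ hu⟩)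
      rw [shifted_graph D a (fun p => u (g p)) u (fun d => by rw [hgd d])]
      exact_mod_cast big_le hk D (shift a u)
    · intro u _ v _ huv
      funext d
      have := congrFun huv ⟨(a d + d.1, a d), mem_image.mpr ⟨d, mem_univ _, rfl⟩⟩
      dsimp only at this
      rw [hgd d] at this
      exact this
  exact_mod_cast h2

theorem single_of_typical {k : ℕ} {η τ : ℝ} (h : Typical k η τ) : Single k η τ := by
  obtain ⟨c, hc, h⟩ := h (1 / 2) (by norm_num)
  refine ⟨c, hc, fun D a M hM hN => ?_⟩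
  by_contra hcon
  push Not at hcon
  have h1 := h D a M hM hN
  rw [filter_true_of_mem (fun u _ => hcon u)] at h1
  have h2 : ((univ : Finset (D → Fin M)).card : ℝ) = (M : ℝ) ^ D.card := by
    rw [card_univ, Fintype.card_fun, Fintype.card_fin, Fintype.card_coe]
    push_cast
    rfl
  rw [h2] at h1
  have hM0 : (0 : ℝ) < M := by exact_mod_cast hM
  have h3 : (0 : ℝ) < (M : ℝ) ^ D.card := by positivity
  linarith

/-- Representatives of the differences. -/
theorem reps (A : Finset (ℤ × ℤ)) : ∃ a : df A → ℤ, ∀ d : df A, (a d + d.1, a d) ∈ A := by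
  have h : ∀ d : df A, ∃ y : ℤ, (y + d.1, y) ∈ A := by
    rintro ⟨d, hd⟩
    unfold df at hd
    obtain ⟨p, hp, rfl⟩ := mem_image.mp hd
    refine ⟨p.2, ?_⟩
    have : (p.2 + (p.1 - p.2), p.2) = p := by ext <;> simp
    dsimp only
    rw [this]
    exact hp
  choose a ha using h
  exact ⟨a, ha⟩

theorem of_single {k : ℕ} (hk : 1 ≤ k) {η τ : ℝ} (h : Single k η τ) :
    Smo.Single (slopes k) η τ := by
  classical
  obtain ⟨c, hc, h⟩ := h
  have hk0 : (0 : ℝ) < k := by exact_mod_cast hk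
  refine ⟨c / k, by positivity, fun A M hM hN => ?_⟩
  obtain ⟨a, ha⟩ := reps A
  rw [← df_card] at hN ⊢
  obtain ⟨u, hu⟩ := h (df A) a M hM hN
  refine ⟨fun p => u ⟨p.1.1 - p.1.2, mem_image.mpr ⟨p.1, p.2, rfl⟩⟩, ?_⟩
  set u' : A → Fin M := fun p => u ⟨p.1.1 - p.1.2, mem_image.mpr ⟨p.1, p.2, rfl⟩⟩ with hu'
  have hsub : graph (df A) (shift a u) ⊆ shifted A u' := by
    intro q hq
    obtain ⟨d, _, rfl⟩ := mem_image.mp hq
    unfold shifted
    refine mem_image.mpr ⟨⟨(a d + d.1, a d), ha d⟩, mem_univ _, ?_⟩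
    have e : u' ⟨(a d + d.1, a d), ha d⟩ = u d := by
      rw [hu']
      dsimp only
      congr 1
      apply Subtype.ext
      simp
    rw [e]
    unfold shift
    ext
    · dsimp only
      ring
    · rfl
  have h1 : ((aps k (df A) (shift a u)).card : ℝ) ≤ k * (big (slopes k) (shifted A u') : ℝ) := by
    have := (aps_le k (df A) (shift a u)).trans (Nat.mul_le_mul_left k (big_mono hsub))
    exact_mod_cast this
  rw [div_mul_eq_mul_div, div_le_iff₀ hk0]
  linarith

theorem det_iff {k : ℕ} (hk : 1 ≤ k) {κ : ℝ} (hκ : 0 ≤ κ) :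
    Det k κ ↔ Smo.Det (slopes k) κ := by
  constructor
  · rintro ⟨C, h⟩
    refine ⟨max C 0 * (k : ℝ) ^ κ, fun A => ?_⟩
    obtain ⟨a, ha⟩ := reps A
    have hsub : graph (df A) a ⊆ A := by
      intro q hq
      obtain ⟨d, _, rfl⟩ := mem_image.mp hq
      exact ha d
    have h1 : ((aps k (df A) a).card : ℝ) ≤ k * (big (slopes k) A : ℝ) := by
      have := (aps_le k (df A) a).trans (Nat.mul_le_mul_left k (big_mono hsub))
      exact_mod_cast this
    rw [← df_card]
    calc ((df A).card : ℝ) ≤ C * ((aps k (df A) a).card : ℝ) ^ κ := h _ _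
      _ ≤ max C 0 * ((aps k (df A) a).card : ℝ) ^ κ :=
        mul_le_mul_of_nonneg_right (le_max_left _ _) (by positivity)
      _ ≤ max C 0 * (k * (big (slopes k) A : ℝ)) ^ κ :=
        mul_le_mul_of_nonneg_left (Real.rpow_le_rpow (by positivity) h1 hκ) (le_max_right _ _)
      _ = _ := by rw [Real.mul_rpow (by positivity) (by positivity)]; ring
  · rintro ⟨C, h⟩
    refine ⟨max C 0, fun D a => ?_⟩
    have h1 := h (graph D a)
    rw [graph_proj] at h1
    have h2 : (big (slopes k) (graph D a) : ℝ) ≤ ((aps k D a).card : ℝ) := by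
      exact_mod_cast big_le hk D a
    calc (D.card : ℝ) ≤ C * (big (slopes k) (graph D a) : ℝ) ^ κ := h1
      _ ≤ max C 0 * (big (slopes k) (graph D a) : ℝ) ^ κ :=
        mul_le_mul_of_nonneg_right (le_max_left _ _) (by positivity)
      _ ≤ _ := mul_le_mul_of_nonneg_left (Real.rpow_le_rpow (by positivity) h2 hκ)
        (le_max_right _ _)

theorem tfae {k : ℕ} (hk : 1 ≤ k) {κ η : ℝ} (hκ : 1 ≤ κ) (hη0 : 0 ≤ η) (hη1 : η < 1) :
    (Det k κ ↔ Typical k η (η + (1 - η) / κ)) ∧ (Det k κ ↔ Single k η (η + (1 - η) / κ)) := by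
  have hS := Smo.tfae (slopes_ne k) hκ hη0 hη1
  have h1 : Det k κ → Typical k η (η + (1 - η) / κ) := fun h =>
    typical_of hk (hS.1.mp ((det_iff hk (by linarith)).mp h))
  have h2 : Single k η (η + (1 - η) / κ) → Det k κ := fun h =>
    (det_iff hk (by linarith)).mpr (hS.2.mpr (of_single hk h))
  exact ⟨⟨h1, fun h => h2 (single_of_typical h)⟩, ⟨fun h => single_of_typical (h1 h), h2⟩⟩

theorem slopes_mono {j k : ℕ} (h : j ≤ k) : slopes j ⊆ slopes k := by
  unfold slopes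
  exact image_subset_image (Ico_subset_Ico_right h)

theorem det_sdc : ∃ k₀ : ℕ, ∀ k : ℕ, k₀ ≤ k → ∀ A : Finset (ℤ × ℤ),
    ((proj (-1) A).card : ℝ) ≤ 1 * (big (slopes k) A : ℝ) ^ (1.669587 : ℝ) := by
  classical
  obtain ⟨S₀, hS₀, h⟩ := Pool.Agent.TH404.AK.sdc3
  have hb : Pool.Agent.R470.AK.Bound S₀ 1.669587 := by
    intro A
    have h1 := h A
    have h2 : (1.669587 : ℝ) = 1669587 / 1000000 := by norm_num
    unfold Pool.Agent.R470.AK.big Pool.Agent.R470.AK.proj Pool.Agent.R470.AK.projInf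
    rw [h2]
    push_cast
    exact h1
  have hR : Pool.Agent.R470.AK.Rich {r : ℚ | ∃ j : ℕ, 1 ≤ j ∧ r = 1 / (j : ℚ) - 1} := by
    intro k
    refine ⟨1, 1, one_ne_zero, fun j _ => ⟨1 / ((j + 1 : ℕ) : ℚ) - 1, ⟨j + 1, by omega, rfl⟩, ?_, ?_⟩⟩
    · have : (0 : ℚ) < 1 / ((j + 1 : ℕ) : ℚ) := by positivity
      linarith
    · unfold Pool.Agent.R470.AK.tm
      push_cast
      rw [sub_add_cancel, one_div_one_div]
      ring
  obtain ⟨S, hS, -, hB⟩ := Pool.Agent.R470.AK.rich_bound hR (by norm_num) hS₀ hb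
  have hch : ∀ r ∈ S, ∃ j : ℕ, 1 ≤ j ∧ r = 1 / (j : ℚ) - 1 := fun r hr => hS (mem_coe.mpr hr)
  choose! g hg1 hg2 using hch
  refine ⟨S.sup g + 1, fun k hk A => ?_⟩
  have hsub : S ⊆ slopes k := by
    intro r hr
    unfold slopes
    refine mem_image.mpr ⟨g r, mem_Ico.mpr ⟨hg1 r hr, ?_⟩, (hg2 r hr).symm⟩
    have := le_sup (f := g) hr
    omega
  have h1 : big S A ≤ big (slopes k) A := Pool.Agent.R535.AK.big_mono_left hsub
  rw [one_mul]
  calc ((proj (-1) A).card : ℝ) ≤ (big S A : ℝ) ^ (1.669587 : ℝ) := hB A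
    _ ≤ _ := Real.rpow_le_rpow (by positivity) (by exact_mod_cast h1) (by norm_num)

theorem uncond : ∃ k₀ : ℕ, ∀ k : ℕ, k₀ ≤ k → ∀ η : ℝ, 0 ≤ η → η ≤ 1 →
    Typical k η (η + (1 - η) / 1.669587) := by
  obtain ⟨k₀, h⟩ := det_sdc
  refine ⟨k₀ + 1, fun k hk η h0 h1 => typical_of (by omega) ?_⟩
  intro δ hδ
  exact ab (slopes_ne k) (by norm_num) (h k (by omega)) h0 h1 hδ

/-- The discrete one-dimensional form of the conjecture. -/
def Conjecture : Prop := ∀ ε : ℝ, 0 < ε → ∃ k : ℕ, 1 ≤ k ∧ Det k (1 + ε)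

theorem conj_typical (h : Conjecture) {η : ℝ} (hη0 : 0 ≤ η) (hη1 : η < 1) {ε : ℝ} (hε : 0 < ε)
    (hε1 : ε < 1) : ∃ k : ℕ, 1 ≤ k ∧ Typical k η (1 - ε) := by
  obtain ⟨k, hk, hb⟩ := h ε hε
  refine ⟨k, hk, typical_of hk ?_⟩
  have h2 := (Smo.tfae (slopes_ne k) (by linarith : (1 : ℝ) ≤ 1 + ε) hη0 hη1).1.mp
    ((det_iff hk (by linarith)).mp hb)
  refine typical_mono ?_ (by linarith) h2
  have h3 : (1 - η) * (1 - ε) ≤ (1 - η) / (1 + ε) := by
    rw [le_div_iff₀ (by linarith)]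
    nlinarith [mul_nonneg (sub_nonneg.mpr hη1.le) (sq_nonneg ε)]
  nlinarith

theorem single_conj {η : ℝ} (hη0 : 0 ≤ η) (hη1 : η < 1)
    (h : ∀ ε : ℝ, 0 < ε → ε < 1 → ∃ k : ℕ, 1 ≤ k ∧ Single k η (1 - ε)) : Conjecture := by
  intro e he
  have h1η : 0 < 1 - η := by linarith
  have hκ1 : 1 < 1 + e := by linarith
  have hκ0 : 0 < 1 + e := by linarith
  set ε : ℝ := (1 - η) * (1 - 1 / (1 + e)) with hε
  have h2 : 1 / (1 + e) < 1 := by rw [div_lt_one hκ0]; exact hκ1
  have h3 : 0 < 1 / (1 + e) := by positivity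
  have hε0 : 0 < ε := by
    rw [hε]
    exact mul_pos h1η (by linarith)
  have hε1 : ε < 1 := by
    rw [hε]
    nlinarith
  obtain ⟨k, hk, hs⟩ := h ε hε0 hε1
  have h4 : 1 - ε = η + (1 - η) / (1 + e) := by
    rw [hε]
    ring
  rw [h4] at hs
  exact ⟨k, hk, (tfae hk hκ1.le hη0 hη1).2.mpr hs⟩

theorem conj_iff {η : ℝ} (hη0 : 0 ≤ η) (hη1 : η < 1) :
    (Conjecture ↔ ∀ ε : ℝ, 0 < ε → ε < 1 → ∃ k : ℕ, 1 ≤ k ∧ Typical k η (1 - ε)) ∧
    (Conjecture ↔ ∀ ε : ℝ, 0 < ε → ε < 1 → ∃ k : ℕ, 1 ≤ k ∧ Single k η (1 - ε)) := by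
  refine ⟨⟨fun h ε h0 h1 => conj_typical h hη0 hη1 h0 h1, fun h => ?_⟩,
    ⟨fun h ε h0 h1 => ?_, fun h => single_conj hη0 hη1 h⟩⟩
  · refine single_conj hη0 hη1 fun ε h0 h1 => ?_
    obtain ⟨k, hk, hs⟩ := h ε h0 h1
    exact ⟨k, hk, single_of_typical hs⟩
  · obtain ⟨k, hk, hs⟩ := conj_typical h hη0 hη1 h0 h1
    exact ⟨k, hk, single_of_typical hs⟩

end Pool.Agent.Run7.h928.Smo.Prog
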