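import Pool.Agent.Run7.h928.Smo.Basic

/-!
# Smoothed arithmetic Kakeya: random shifts
-/

set_option autoImplicit false
set_option linter.unusedSectionVars false

open Finset

namespace Pool.Agent.Run7.h928.Smo

theorem cauchy {ι : Type*} [DecidableEq ι] (B : Finset ι) (h : ι → ℚ) :
    B.card ^ 2 ≤ (B.image h).card * ((B ×ˢ B).filter fun z => h z.1 = h z.2).card := by
  classical
  have e1 : ∑ v ∈ B.image h, (B.filter fun a => h a = v).card = B.card :=
    (card_eq_sum_card_image h B).symm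
  have e2 : ((B ×ˢ B).filter fun z => h z.1 = h z.2).card =
      ∑ v ∈ B.image h, (B.filter fun a => h a = v).card ^ 2 := by
    rw [card_eq_sum_card_fiberwise (f := fun z : ι × ι => h z.1) (t := B.image h)]
    · refine sum_congr rfl fun v _ => ?_
      rw [sq, ← card_product]
      congr 1
      ext ⟨a, b⟩
      simp only [mem_filter, mem_product]
      constructor
      · rintro ⟨⟨⟨h1, h2⟩, h3⟩, h4⟩
        exact ⟨⟨h1, h4⟩, h2, h3 ▸ h4⟩
      · rintro ⟨⟨h1, h2⟩, h3, h4⟩
        exact ⟨⟨⟨h1, h3⟩, h2.trans h4.symm⟩, h2⟩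
    · intro z hz
      have := (mem_filter.mp (mem_coe.mp hz)).1
      exact mem_coe.mpr (mem_image_of_mem _ (mem_product.mp this).1)
  rw [e2, ← e1]
  exact sq_sum_le_card_mul_sum_sq

variable {ι : Type*} [Fintype ι] [DecidableEq ι] {M : ℕ}

theorem pair_count {a b : ι} (hab : a ≠ b) (R : Fin M → Fin M → Prop) [DecidableRel R]
    (hR : ∀ x x' y, R x y → R x' y → x = x') :
    M * (univ.filter fun u : ι → Fin M => R (u a) (u b)).card ≤ M ^ Fintype.card ι := by
  classical
  have h1 : ((univ.filter fun u : ι → Fin M => R (u a) (u b)) ×ˢ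
      (univ : Finset (Fin M))).card ≤ (univ : Finset (ι → Fin M)).card := by
    refine card_le_card_of_injOn (fun z => Function.update z.1 a z.2)
      (fun _ _ => mem_coe.mpr (mem_univ _)) ?_
    rintro ⟨u, v⟩ hu ⟨u', v'⟩ hu' h
    have hu := (mem_filter.mp (mem_product.mp (mem_coe.mp hu)).1).2
    have hu' := (mem_filter.mp (mem_product.mp (mem_coe.mp hu')).1).2
    dsimp only at hu hu' h
    have hv : v = v' := by
      have := congrFun h a
      simpa using this
    have hc : ∀ c, c ≠ a → u c = u' c := by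
      intro c hc
      have := congrFun h c
      simpa [Function.update_of_ne hc] using this
    have hb := hc b hab.symm
    rw [← hb] at hu'
    have ha := hR _ _ _ hu hu'
    have : u = u' := by
      funext c
      by_cases h : c = a
      · rw [h]; exact ha
      · exact hc c h
    rw [this, hv]
  rw [card_product, card_univ, card_univ, Fintype.card_fun, Fintype.card_fin, mul_comm] at h1
  exact h1

theorem energy {B : Finset ι} {g : ι → ℚ} {s : ℚ} (hs : s ≠ 0) (hM : 1 ≤ M) {C : ℕ}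
    (hC : ∀ a ∈ B, (B.filter fun b => |g a - g b| ≤ |s| * M).card ≤ C * M) :
    ∑ u : ι → Fin M, ((B ×ˢ B).filter fun z =>
      g z.1 + s * ((u z.1 : ℕ) : ℚ) = g z.2 + s * ((u z.2 : ℕ) : ℚ)).card ≤
      (1 + C) * B.card * M ^ Fintype.card ι := by
  classical
  have e1 : ∑ u : ι → Fin M, ((B ×ˢ B).filter fun z =>
      g z.1 + s * ((u z.1 : ℕ) : ℚ) = g z.2 + s * ((u z.2 : ℕ) : ℚ)).card =
      ∑ z ∈ B ×ˢ B, (univ.filter fun u : ι → Fin M =>
        g z.1 + s * ((u z.1 : ℕ) : ℚ) = g z.2 + s * ((u z.2 : ℕ) : ℚ)).card := by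
    simp only [card_filter]
    exact sum_comm
  refine le_of_mul_le_mul_left ?_ (show 0 < M from hM)
  rw [e1, mul_sum]
  have h1 : ∀ z ∈ B ×ˢ B, M * (univ.filter fun u : ι → Fin M =>
        g z.1 + s * ((u z.1 : ℕ) : ℚ) = g z.2 + s * ((u z.2 : ℕ) : ℚ)).card ≤
      (if z.2 = z.1 then M * M ^ Fintype.card ι else 0) +
        (if |g z.1 - g z.2| ≤ |s| * M then M ^ Fintype.card ι else 0) := by
    rintro ⟨a, b⟩ _
    dsimp only
    by_cases hab : b = a
    · rw [if_pos hab]
      refine le_trans ?_ (Nat.le_add_right _ _)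
      refine Nat.mul_le_mul_left _ ?_
      refine (card_le_univ _).trans ?_
      rw [Fintype.card_fun, Fintype.card_fin]
    · rw [if_neg hab, zero_add]
      split_ifs with hn
      · refine pair_count (Ne.symm hab) (fun x y => g a + s * ((x : ℕ) : ℚ) = g b + s * ((y : ℕ) : ℚ)) ?_
        intro x x' y hx hx'
        have h2 : s * ((x : ℕ) : ℚ) = s * ((x' : ℕ) : ℚ) := by linarith
        have h3 := mul_left_cancel₀ hs h2
        exact Fin.ext (by exact_mod_cast h3)
      · rw [Nat.le_zero, mul_eq_zero]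
        right
        rw [card_eq_zero, filter_eq_empty_iff]
        intro u _ hu
        apply hn
        have h2 : g a - g b = s * (((u b : ℕ) : ℚ) - ((u a : ℕ) : ℚ)) := by linarith
        rw [h2, abs_mul]
        refine mul_le_mul_of_nonneg_left ?_ (abs_nonneg _)
        have h3 : ((u a : ℕ) : ℚ) < M := by exact_mod_cast (u a).2
        have h4 : ((u b : ℕ) : ℚ) < M := by exact_mod_cast (u b).2
        have h5 : (0 : ℚ) ≤ ((u a : ℕ) : ℚ) := Nat.cast_nonneg _
        have h6 : (0 : ℚ) ≤ ((u b : ℕ) : ℚ) := Nat.cast_nonneg _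
        rw [abs_le]
        constructor <;> linarith
  refine (sum_le_sum h1).trans ?_
  rw [sum_product]
  have h2 : ∀ a ∈ B, ∑ b ∈ B, ((if b = a then M * M ^ Fintype.card ι else 0) +
        (if |g a - g b| ≤ |s| * M then M ^ Fintype.card ι else 0)) ≤
      (1 + C) * (M * M ^ Fintype.card ι) := by
    intro a ha
    rw [sum_add_distrib, sum_ite_eq' B a, if_pos ha, ← sum_filter, sum_const, smul_eq_mul]
    have := Nat.mul_le_mul_right (M ^ Fintype.card ι) (hC a ha)
    calc _ ≤ M * M ^ Fintype.card ι + C * M * M ^ Fintype.card ι := Nat.add_le_add_left this _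
      _ = _ := by ring
  refine (sum_le_sum h2).trans ?_
  rw [sum_const, smul_eq_mul]
  exact le_of_eq (by ring)

/-- Few shifts give few values. -/
theorem rand {B : Finset ι} {g : ι → ℚ} {s : ℚ} (hs : s ≠ 0) (hM : 1 ≤ M) {C : ℕ}
    (hC : ∀ a ∈ B, (B.filter fun b => |g a - g b| ≤ |s| * M).card ≤ C * M)
    {δ : ℝ} (hδ : 0 < δ) :
    ((univ.filter fun u : ι → Fin M => (1 + C : ℝ) *
      (B.image fun a => g a + s * ((u a : ℕ) : ℚ)).card < δ * B.card).card : ℝ) ≤
      δ * (M : ℝ) ^ Fintype.card ι := by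
  classical
  rcases B.eq_empty_or_nonempty with hB | hB
  · subst hB
    rw [filter_false_of_mem]
    · simp only [card_empty, Nat.cast_zero]
      positivity
    · intro u _
      simp
  · have hB0 : (0 : ℝ) < B.card := by exact_mod_cast card_pos.mpr hB
    have hC0 : (0 : ℝ) < 1 + C := by positivity
    set bad := univ.filter fun u : ι → Fin M => (1 + C : ℝ) *
      (B.image fun a => g a + s * ((u a : ℕ) : ℚ)).card < δ * B.card with hbad
    set E : (ι → Fin M) → ℕ := fun u => ((B ×ˢ B).filter fun z =>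
      g z.1 + s * ((u z.1 : ℕ) : ℚ) = g z.2 + s * ((u z.2 : ℕ) : ℚ)).card with hE
    have h1 : ∀ u ∈ bad, (1 + C : ℝ) * B.card ≤ δ * E u := by
      intro u hu
      have hu := (mem_filter.mp hu).2
      have h2 := cauchy B fun a => g a + s * ((u a : ℕ) : ℚ)
      have h3 : (B.card : ℝ) ^ 2 ≤
          (B.image fun a => g a + s * ((u a : ℕ) : ℚ)).card * (E u : ℝ) := by
        exact_mod_cast h2
      have h4 : (1 + C : ℝ) * (B.card : ℝ) ^ 2 ≤ δ * B.card * E u := by
        calc (1 + C : ℝ) * (B.card : ℝ) ^ 2 ≤ (1 + C : ℝ) *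
              ((B.image fun a => g a + s * ((u a : ℕ) : ℚ)).card * (E u : ℝ)) :=
              mul_le_mul_of_nonneg_left h3 hC0.le
          _ = (1 + C : ℝ) * (B.image fun a => g a + s * ((u a : ℕ) : ℚ)).card * E u := by ring
          _ ≤ _ := mul_le_mul_of_nonneg_right hu.le (Nat.cast_nonneg _)
      refine le_of_mul_le_mul_left ?_ hB0
      calc (B.card : ℝ) * ((1 + C : ℝ) * B.card) = (1 + C : ℝ) * (B.card : ℝ) ^ 2 := by ring
        _ ≤ _ := h4
        _ = _ := by ring
    have h5 : (bad.card : ℝ) * ((1 + C : ℝ) * B.card) ≤ δ * ∑ u ∈ bad, (E u : ℝ) := by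
      rw [mul_sum, ← nsmul_eq_mul, ← sum_const]
      exact sum_le_sum h1
    have h6 : ∑ u ∈ bad, (E u : ℝ) ≤ (1 + C : ℝ) * B.card * (M : ℝ) ^ Fintype.card ι := by
      have h7 : ∑ u ∈ bad, E u ≤ ∑ u, E u := sum_le_sum_of_subset (subset_univ _)
      have h8 := h7.trans (energy hs hM hC)
      exact_mod_cast h8
    have h9 : (bad.card : ℝ) * ((1 + C : ℝ) * B.card) ≤
        (δ * (M : ℝ) ^ Fintype.card ι) * ((1 + C : ℝ) * B.card) := by
      refine h5.trans ((mul_le_mul_of_nonneg_left h6 hδ.le).trans (le_of_eq (by ring)))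
    exact le_of_mul_le_mul_right h9 (by positivity)

/-- the constant for neighbouring blocks -/
noncomputable def K2 (s : ℚ) : ℕ := ⌈|s|⌉₊ + 1

theorem near_le {f : ℚ × ℚ} {s : ℚ} (hM : 1 ≤ M) {B : Finset ι} {pt : ι → ℤ × ℤ}
    (hB : ∀ j, (B.filter fun b => blk M f (pt b) = j).card ≤ M) (a : ι) :
    (B.filter fun b => |fm f (pt a) - fm f (pt b)| ≤ |s| * M).card ≤ (2 * K2 s + 1) * M := by
  classical
  have hM0 : (0 : ℚ) < M := by exact_mod_cast hM
  have h1 : (B.filter fun b => |fm f (pt a) - fm f (pt b)| ≤ |s| * M) ⊆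
      (Icc (blk M f (pt a) - K2 s) (blk M f (pt a) + K2 s)).biUnion fun j =>
        B.filter fun b => blk M f (pt b) = j := by
    intro b hb
    obtain ⟨hb1, hb2⟩ := mem_filter.mp hb
    refine mem_biUnion.mpr ⟨blk M f (pt b), ?_, mem_filter.mpr ⟨hb1, rfl⟩⟩
    have e1 : |fm f (pt a) / M - fm f (pt b) / M| ≤ |s| := by
      rw [← sub_div, abs_div, abs_of_pos hM0, div_le_iff₀ hM0]
      exact hb2
    have f1 := Int.floor_le (fm f (pt a) / M)
    have f2 := Int.lt_floor_add_one (fm f (pt a) / M)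
    have f3 := Int.floor_le (fm f (pt b) / M)
    have f4 := Int.lt_floor_add_one (fm f (pt b) / M)
    have e2 := abs_le.mp e1
    have e3 : |s| ≤ (⌈|s|⌉₊ : ℚ) := Nat.le_ceil _
    have e4 : |((blk M f (pt b) : ℤ) : ℚ) - blk M f (pt a)| ≤ ((K2 s : ℕ) : ℚ) := by
      unfold blk K2
      push_cast
      rw [abs_le]
      constructor <;> linarith [e2.1, e2.2]
    have e5 : |blk M f (pt b) - blk M f (pt a)| ≤ (K2 s : ℤ) := by exact_mod_cast e4
    rw [mem_Icc]
    have := abs_le.mp e5
    constructor <;> linarith [this.1, this.2]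
  calc _ ≤ _ := card_le_card h1
    _ ≤ ∑ j ∈ Icc (blk M f (pt a) - K2 s) (blk M f (pt a) + K2 s),
          (B.filter fun b => blk M f (pt b) = j).card := card_biUnion_le
    _ ≤ ∑ j ∈ Icc (blk M f (pt a) - K2 s) (blk M f (pt a) + K2 s), M :=
        sum_le_sum fun j _ => hB j
    _ = _ := by
        rw [sum_const, smul_eq_mul, Int.card_Icc]
        congr 1
        omega

end Pool.Agent.Run7.h928.Smo
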