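import Pool.Agent.Run7.h928.Smo.Final

/-!
# Smoothed arithmetic Kakeya: the exponent is exact
-/

set_option autoImplicit false
set_option linter.unusedSectionVars false

open Finset

namespace Pool.Agent.Run7.h928.Smo

/-- The blow-up of a set by the factor `M`. -/
def blow (M : ℕ) (A : Finset (ℤ × ℤ)) : Finset (ℤ × ℤ) :=
  (A ×ˢ range M).image fun z => ((M : ℤ) * z.1.1, (M : ℤ) * z.1.2 - (z.2 : ℤ))

theorem df_blow (M : ℕ) (A : Finset (ℤ × ℤ)) : (df (blow M A)).card = (df A).card * M := by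
  classical
  have e : df (blow M A) = ((df A) ×ˢ range M).image fun z => (M : ℤ) * z.1 + (z.2 : ℤ) := by
    ext d
    unfold df blow
    simp only [mem_image, mem_product, Prod.exists]
    constructor
    · rintro ⟨a, b, ⟨x, y, j, ⟨h1, h2⟩, h3⟩, rfl⟩
      simp only [Prod.mk.injEq] at h3
      refine ⟨x - y, j, ⟨⟨x, y, h1, rfl⟩, h2⟩, ?_⟩
      rw [← h3.1, ← h3.2]
      ring
    · rintro ⟨z, j, ⟨⟨x, y, h1, rfl⟩, h2⟩, rfl⟩
      exact ⟨M * x, M * y - j, ⟨x, y, j, ⟨h1, h2⟩, rfl⟩, by ring⟩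
  rw [e, card_image_of_injOn, card_product, card_range]
  rintro ⟨a, i⟩ ha ⟨b, j⟩ hb h
  have hi := (mem_product.mp (mem_coe.mp ha)).2
  have hj := (mem_product.mp (mem_coe.mp hb)).2
  dsimp only at hi hj h
  rw [mem_range] at hi hj
  have h1 : (M : ℤ) * (a - b) = (j : ℤ) - i := by linarith
  have h2 : (j : ℤ) - i = 0 := by
    refine Int.eq_zero_of_abs_lt_dvd ⟨a - b, h1.symm⟩ ?_
    rw [abs_lt]
    constructor <;> omega
  have h3 : i = j := by omega
  have hM : (M : ℤ) ≠ 0 := by omega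
  have h4 : a - b = 0 := by
    rw [h2] at h1
    exact (mul_eq_zero.mp h1).resolve_left hM
  have h5 : a = b := by linarith
  rw [h3, h5]

/-- a constant -/
noncomputable def K3 (f : ℚ × ℚ) : ℕ := ⌈(qd f : ℚ) * (|f.1 + f.2| + |f.2|)⌉₊

theorem nv_blow (f : ℚ × ℚ) {M : ℕ} (hM : 1 ≤ M) (A : Finset (ℤ × ℤ))
    (u : blow M A → Fin M) : nv f (shifted (blow M A) u) ≤ (2 * K3 f + 1) * M * nv f A := by
  classical
  set q : ℕ := qd f with hq
  have hq0 : (0 : ℚ) < q := by exact_mod_cast qd_pos f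
  have hM0 : (0 : ℚ) ≤ M := Nat.cast_nonneg _
  have h1 : (shifted (blow M A) u).image (fm f) ⊆ (A.image (fm f)).biUnion fun v =>
      (Icc (-((K3 f * M : ℕ) : ℤ)) ((K3 f * M : ℕ) : ℤ)).image
        fun i : ℤ => (M : ℚ) * v + (i : ℚ) / q := by
    intro w hw
    obtain ⟨p, hp, rfl⟩ := mem_image.mp hw
    obtain ⟨a, -, rfl⟩ := mem_image.mp hp
    obtain ⟨z, hz, ha⟩ := mem_image.mp a.2
    obtain ⟨hz1, hz2⟩ := mem_product.mp hz
    rw [mem_range] at hz2
    refine mem_biUnion.mpr ⟨fm f z.1, mem_image_of_mem _ hz1, ?_⟩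
    obtain ⟨i, hi⟩ := fm_int f (((u a : ℕ) : ℤ), ((u a : ℕ) : ℤ) - (z.2 : ℤ))
    have e1 : fm f (((u a : ℕ) : ℤ), ((u a : ℕ) : ℤ) - (z.2 : ℤ)) =
        (f.1 + f.2) * ((u a : ℕ) : ℚ) - f.2 * (z.2 : ℚ) := by
      unfold fm
      push_cast
      ring
    refine mem_image.mpr ⟨i, ?_, ?_⟩
    · have h2 : |(f.1 + f.2) * ((u a : ℕ) : ℚ) - f.2 * (z.2 : ℚ)| ≤
          (|f.1 + f.2| + |f.2|) * M := by
        have h3 : ((u a : ℕ) : ℚ) ≤ M := by exact_mod_cast (u a).2.le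
        have h4 : ((z.2 : ℕ) : ℚ) ≤ M := by exact_mod_cast hz2.le
        calc _ ≤ |(f.1 + f.2) * ((u a : ℕ) : ℚ)| + |f.2 * (z.2 : ℚ)| := abs_sub _ _
          _ = |f.1 + f.2| * ((u a : ℕ) : ℚ) + |f.2| * (z.2 : ℚ) := by
              rw [abs_mul, abs_mul, Nat.abs_cast, Nat.abs_cast]
          _ ≤ |f.1 + f.2| * M + |f.2| * M :=
              add_le_add (mul_le_mul_of_nonneg_left h3 (abs_nonneg _))
                (mul_le_mul_of_nonneg_left h4 (abs_nonneg _))
          _ = _ := by ring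
      rw [← e1, hi, abs_div, abs_of_pos hq0, div_le_iff₀ hq0] at h2
      have h5 : |(i : ℚ)| ≤ ((K3 f * M : ℕ) : ℚ) := by
        calc |(i : ℚ)| ≤ _ := h2
          _ = (q * (|f.1 + f.2| + |f.2|)) * M := by ring
          _ ≤ (K3 f : ℚ) * M := mul_le_mul_of_nonneg_right (Nat.le_ceil _) hM0
          _ = _ := by push_cast; ring
      have h6 : |i| ≤ ((K3 f * M : ℕ) : ℤ) := by exact_mod_cast h5
      rw [mem_Icc]
      exact abs_le.mp h6
    · rw [← hi, fm_shift, ← ha]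
      unfold fm
      push_cast
      ring
  unfold nv
  calc _ ≤ _ := card_le_card h1
    _ ≤ ∑ v ∈ A.image (fm f), ((Icc (-((K3 f * M : ℕ) : ℤ)) ((K3 f * M : ℕ) : ℤ)).image
        fun i : ℤ => (M : ℚ) * v + (i : ℚ) / q).card := card_biUnion_le
    _ ≤ ∑ v ∈ A.image (fm f), (2 * K3 f + 1) * M := sum_le_sum fun v _ =>
        card_image_le.trans (by
          rw [Int.card_Icc]
          have : (((K3 f * M : ℕ) : ℤ) + 1 - -((K3 f * M : ℕ) : ℤ)).toNat =
            2 * (K3 f * M) + 1 := by omega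
          rw [this]
          nlinarith)
    _ = _ := by rw [sum_const, smul_eq_mul, mul_comm]

/-- (c) implies (a) -/
theorem ca {S : Finset ℚ} {κ : ℝ} (hκ : 1 ≤ κ) {η : ℝ} (hη0 : 0 ≤ η) (hη1 : η < 1)
    {c : ℝ} (hc : 0 < c)
    (h : ∀ (A : Finset (ℤ × ℤ)) (M : ℕ), 1 ≤ M → ((proj (-1) A).card : ℝ) ^ η ≤ M →
      ∃ u : A → Fin M, c * ((proj (-1) A).card : ℝ) ^ (η + (1 - η) / κ) ≤
        (big S (shifted A u) : ℝ)) :
    ∃ D : ℝ, ∀ A : Finset (ℤ × ℤ), ((proj (-1) A).card : ℝ) ≤ D * (big S A : ℝ) ^ κ := by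
  classical
  set C4 : ℕ := 2 * (FS S).sup K3 + 1 with hC4
  have hC4' : (0 : ℝ) < C4 := by positivity
  refine ⟨(2 * C4 / c) ^ κ, fun A => ?_⟩
  rcases Nat.eq_zero_or_pos (proj (-1) A).card with h0 | h0
  · rw [h0, Nat.cast_zero]
    positivity
  · set N : ℝ := ((proj (-1) A).card : ℝ) with hN'
    have hN : 1 ≤ N := by rw [hN']; exact_mod_cast h0
    have hN0 : 0 < N := by linarith
    have h1η : 0 < 1 - η := by linarith
    have hω : 0 ≤ η / (1 - η) := div_nonneg hη0 h1η.le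
    have hpow : 1 ≤ N ^ (η / (1 - η)) := Real.one_le_rpow hN hω
    set M : ℕ := ⌈N ^ (η / (1 - η))⌉₊ with hM
    have hM1 : 1 ≤ M := Nat.ceil_pos.mpr (by linarith)
    have hM0 : (0 : ℝ) < M := by exact_mod_cast hM1
    have hMge : N ^ (η / (1 - η)) ≤ M := Nat.le_ceil _
    have hMle : (M : ℝ) ≤ 2 * N ^ (η / (1 - η)) := by
      have := Nat.ceil_lt_add_one (a := N ^ (η / (1 - η))) (by positivity)
      rw [← hM] at this
      linarith
    have hcard : ((proj (-1) (blow M A)).card : ℝ) = N * M := by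
      rw [← df_card, df_blow, df_card]
      push_cast
      rfl
    have hcond : ((proj (-1) (blow M A)).card : ℝ) ^ η ≤ M := by
      rw [hcard, Real.mul_rpow hN0.le hM0.le]
      have e1 : N ^ η ≤ (M : ℝ) ^ (1 - η) := by
        calc N ^ η = (N ^ (η / (1 - η))) ^ (1 - η) := by
              rw [← Real.rpow_mul hN0.le, div_mul_cancel₀ _ h1η.ne']
          _ ≤ _ := Real.rpow_le_rpow (by positivity) hMge h1η.le
      calc N ^ η * (M : ℝ) ^ η ≤ (M : ℝ) ^ (1 - η) * (M : ℝ) ^ η :=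
            mul_le_mul_of_nonneg_right e1 (by positivity)
        _ = M := by rw [← Real.rpow_add hM0, sub_add_cancel, Real.rpow_one]
    obtain ⟨u, hu⟩ := h (blow M A) M hM1 hcond
    have hbig : (big S (shifted (blow M A) u) : ℝ) ≤ C4 * M * big S A := by
      have h2 : big S (shifted (blow M A) u) ≤ C4 * M * big S A := by
        rw [← big_eq, ← big_eq]
        refine Finset.sup_le fun f hf => ?_
        have h3 : K3 f ≤ (FS S).sup K3 := le_sup hf
        have h4 : nv f A ≤ (FS S).sup fun f => nv f A := le_sup (f := fun f => nv f A) hf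
        calc nv f (shifted (blow M A) u) ≤ (2 * K3 f + 1) * M * nv f A := nv_blow f hM1 A u
          _ ≤ C4 * M * (FS S).sup fun f => nv f A :=
            Nat.mul_le_mul (Nat.mul_le_mul_right _ (by omega)) h4
      exact_mod_cast h2
    rw [hcard] at hu
    exact ca_alg hc hC4' hκ hη0 hη1 hN hM0 hMle (Nat.cast_nonneg _) (hu.trans hbig)

end Pool.Agent.Run7.h928.Smo
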